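import Mathlib

/-!
# Graphs in which every ball of radius two is large
-/

set_option autoImplicit false

open Finset

namespace Pool.Agent.X35.GG

section
variable {V : Type} [Fintype V]

/-- packing -/
lemma pack (H : SimpleGraph V) (K : ℕ)
    (hK : ∀ a, Fintype.card V ≤ K * {b | H.edist a b ≤ 2}.ncard) {ι : Type} [Fintype ι] (f : ι → V)
    (hf : ∀ i j y, H.edist (f i) y ≤ 2 → H.edist (f j) y ≤ 2 → i = j) : Fintype.card ι ≤ K := by
  classical
  rcases isEmpty_or_nonempty ι with h0 | ⟨⟨i₀⟩⟩
  · rw [Fintype.card_eq_zero]; exact Nat.zero_le _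
  have hV : 0 < Fintype.card V := Fintype.card_pos_iff.2 ⟨f i₀⟩
  have h1 : ∀ a, {b | H.edist a b ≤ 2}.ncard = (univ.filter (fun b => H.edist a b ≤ 2)).card := by
    intro a
    rw [← Set.ncard_coe_finset]
    congr 1
    ext b
    simp
  have h2 : ∑ i : ι, (univ.filter (fun b => H.edist (f i) b ≤ 2)).card ≤ Fintype.card V := by
    rw [← card_biUnion]
    · exact card_le_univ _
    · intro i _ j _ hij
      rw [Function.onFun, disjoint_left]
      intro y hy1 hy2
      rw [mem_filter] at hy1 hy2
      exact hij (hf i j y hy1.2 hy2.2)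
  have h3 : Fintype.card ι * Fintype.card V ≤ K * Fintype.card V := by
    calc Fintype.card ι * Fintype.card V = ∑ _i : ι, Fintype.card V := by
          rw [sum_const, card_univ, smul_eq_mul]
      _ ≤ ∑ i : ι, K * (univ.filter (fun b => H.edist (f i) b ≤ 2)).card := by
          apply sum_le_sum
          intro i _
          rw [← h1]
          exact hK (f i)
      _ = K * ∑ i : ι, (univ.filter (fun b => H.edist (f i) b ≤ 2)).card := by rw [mul_sum]
      _ ≤ K * Fintype.card V := Nat.mul_le_mul_left _ h2
  exact Nat.le_of_mul_le_mul_right h3 hV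

/-- boundedly many components -/
lemma comps (H : SimpleGraph V) (K : ℕ)
    (hK : ∀ a, Fintype.card V ≤ K * {b | H.edist a b ≤ 2}.ncard) : Nat.card H.ConnectedComponent ≤ K := by
  classical
  have : Fintype H.ConnectedComponent := Fintype.ofFinite _
  rw [Nat.card_eq_fintype_card]
  apply pack H K hK (fun C : H.ConnectedComponent => C.out)
  intro C D y h1 h2
  have h3 : H.edist C.out D.out ≠ ⊤ := by
    apply ne_top_of_le_ne_top (b := 2 + 2) (by norm_cast)
    refine SimpleGraph.edist_triangle.trans (add_le_add h1 ?_)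
    rw [SimpleGraph.edist_comm]
    exact h2
  have h4 := SimpleGraph.edist_ne_top_iff_reachable.1 h3
  have h5 := SimpleGraph.ConnectedComponent.sound h4
  have e1 : H.connectedComponentMk C.out = C := Quot.out_eq C
  have e2 : H.connectedComponentMk D.out = D := Quot.out_eq D
  rw [e1, e2] at h5
  exact h5

/-- vertices at prescribed distances -/
lemma at_dist (H : SimpleGraph V) {a b : V} (hab : H.Reachable a b) (i : ℕ) (hi : i ≤ H.dist a b) :
    ∃ x, H.Reachable a x ∧ H.dist a x = i := by
  obtain ⟨p, hp⟩ := hab.exists_walk_length_eq_dist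
  refine ⟨p.getVert i, ⟨p.take i⟩, ?_⟩
  apply le_antisymm
  · refine (SimpleGraph.dist_le (p.take i)).trans ?_
    rw [SimpleGraph.Walk.take_length]
    exact min_le_left _ _
  · have h1 : H.dist (p.getVert i) b ≤ p.length - i := by
      refine (SimpleGraph.dist_le (p.drop i)).trans ?_
      rw [SimpleGraph.Walk.drop_length]
    have h2 : H.dist a b ≤ H.dist a (p.getVert i) + H.dist (p.getVert i) b := by
      have h3 : H.edist a b ≤ H.edist a (p.getVert i) + H.edist (p.getVert i) b := SimpleGraph.edist_triangle
      have r1 : H.Reachable a (p.getVert i) := ⟨p.take i⟩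
      have r2 : H.Reachable (p.getVert i) b := ⟨p.drop i⟩
      rw [← hab.coe_dist_eq_edist, ← r1.coe_dist_eq_edist, ← r2.coe_dist_eq_edist] at h3
      exact_mod_cast h3
    omega

/-- bounded diameter of the components -/
lemma diam (H : SimpleGraph V) (K : ℕ)
    (hK : ∀ a, Fintype.card V ≤ K * {b | H.edist a b ≤ 2}.ncard) (a b : V) (hab : H.Reachable a b) :
    H.dist a b ≤ 5 * K := by
  classical
  by_contra hcon
  rw [not_le] at hcon
  have h1 : ∀ i : Fin (K + 1), ∃ x, H.Reachable a x ∧ H.dist a x = 5 * (i : ℕ) := by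
    intro i
    apply at_dist H hab
    have := i.2
    omega
  choose f hf1 hf2 using h1
  have h2 := pack H K hK f (by
    intro i j y h3 h4
    have h5 : ∀ i j : Fin (K + 1), H.edist (f i) y ≤ 2 → H.edist (f j) y ≤ 2 → 5 * (i : ℕ) ≤ 5 * (j : ℕ) + 4 := by
      intro i j h3 h4
      have h6 : H.edist a (f i) ≤ H.edist a (f j) + (2 + 2) := by
        refine SimpleGraph.edist_triangle (v := f j) |>.trans ?_
        apply add_le_add le_rfl
        refine SimpleGraph.edist_triangle (v := y) |>.trans ?_
        apply add_le_add h4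
        rw [SimpleGraph.edist_comm]
        exact h3
      rw [← (hf1 i).coe_dist_eq_edist, ← (hf1 j).coe_dist_eq_edist, hf2 i, hf2 j] at h6
      exact_mod_cast h6
    have h6 := h5 i j h3 h4
    have h7 := h5 j i h4 h3
    apply Fin.ext
    omega)
  rw [Fintype.card_fin] at h2
  omega

end

end Pool.Agent.X35.GG
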