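import Pool.Agent.X35.GG.Sv
import Pool.Agent.Y257.HS.TH
import Pool.Agent.Y79.HS.Gav
import Pool.Agent.Y843.QD.Cnt
import Pool.Agent.X35.RP.Mom

/-!
# Upper bound for the number of common neighbours
-/

set_option autoImplicit false

open Finset Filter

namespace Pool.Agent.X35.GG

open Pool.Agent.Y843.HS (Pr Sv VV Th qq Wt Gd)

/-- the upper bound sieve on `1, …, X` -/
theorem sieve_count {C : ℕ} {Z : ℕ → Finset ℕ} {z R : ℕ} {θ : Finset ℕ → ℝ} (hW : Wt C Z z R θ)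
    (hZ : Sv 4 z R Z) (hz : 4 ≤ z) (X : ℕ) (B : Finset ℕ) (hB : B ⊆ Ioc 0 X)
    (hBs : ∀ t ∈ B, ∀ p ∈ Pr z R, t % p ∉ Z p) :
    (B.card : ℝ) ≤ X * (C * VV Z z R) + (R : ℝ) ^ (2 * C) := by
  classical
  have hpr : ∀ U ∈ (Pr z R).powerset, ∀ p ∈ U, p.Prime := by
    intro U hU p hp
    rw [mem_powerset] at hU
    have := hU hp
    unfold Pr at this
    exact (mem_filter.1 this).2
  have h1 : (B.card : ℝ) ≤ ∑ t ∈ Ioc 0 X, Th Z z R θ t := by
    have h2 : (B.card : ℝ) = ∑ t ∈ B, (1 : ℝ) := by simp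
    rw [h2]
    have h3 : ∑ t ∈ B, (1 : ℝ) ≤ ∑ t ∈ B, Th Z z R θ t := by
      apply Finset.sum_le_sum
      intro t ht
      unfold Th
      have h4 : (Pr z R).powerset.filter (fun U => ∀ p ∈ U, t % p ∈ Z p) = {∅} := by
        ext U
        rw [mem_filter, mem_powerset, mem_singleton]
        constructor
        · rintro ⟨h5, h6⟩
          by_contra hne
          obtain ⟨p, hp⟩ := Finset.nonempty_iff_ne_empty.2 hne
          exact hBs t ht p (h5 hp) (h6 p hp)
        · rintro rfl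
          simp
      rw [h4, sum_singleton, hW.one]
    exact h3.trans (Finset.sum_le_sum_of_subset_of_nonneg hB fun t _ _ => hW.nonneg t)
  refine h1.trans ?_
  have h2 : ∑ t ∈ Ioc 0 X, Th Z z R θ t =
      ∑ U ∈ (Pr z R).powerset, θ U * (((Ioc 0 X).filter (fun n => ∀ p ∈ U, n % p ∈ Z p)).card : ℝ) := by
    unfold Th
    simp_rw [Finset.sum_filter]
    rw [Finset.sum_comm]
    apply Finset.sum_congr rfl
    intro U _
    rw [← Finset.sum_filter, Finset.sum_const, nsmul_eq_mul, mul_comm]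
  rw [h2]
  have h3 : ∀ U ∈ (Pr z R).powerset,
      θ U * (((Ioc 0 X).filter (fun n => ∀ p ∈ U, n % p ∈ Z p)).card : ℝ) ≤
      X * (θ U * ∏ p ∈ U, ((Z p).card : ℝ) / p) + (if θ U ≠ 0 then (R : ℝ) ^ C else 0) := by
    intro U hU
    have h4 := Pool.Agent.Y843.QD.card_classes U (hpr U hU) Z (fun p hp c hc => (hZ p (mem_powerset.1 hU hp)).2 c hc) 0 X
    rw [Nat.zero_add] at h4
    obtain ⟨P, hP⟩ : ∃ P : ℝ, P = ∏ p ∈ U, ((Z p).card : ℝ) / p := ⟨_, rfl⟩
    obtain ⟨Q, hQ⟩ : ∃ Q : ℝ, Q = ∏ p ∈ U, ((Z p).card : ℝ) := ⟨_, rfl⟩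
    obtain ⟨N, hN⟩ : ∃ N : ℝ, N = (((Ioc 0 X).filter (fun n => ∀ p ∈ U, n % p ∈ Z p)).card : ℝ) := ⟨_, rfl⟩
    rw [← hP, ← hQ, ← hN] at h4
    rw [← hP, ← hN]
    by_cases hθ : θ U = 0
    · rw [hθ]; simp
    · rw [if_pos hθ]
      have h5 : Q ≤ (R : ℝ) ^ C := by
        have h6 : Q ≤ ∏ p ∈ U, (p : ℝ) := by
          rw [hQ]
          apply Finset.prod_le_prod (fun _ _ => Nat.cast_nonneg _)
          intro p hp
          have h7 := hZ p (mem_powerset.1 hU hp)
          have h8 : z < p := by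
            have := mem_powerset.1 hU hp
            unfold Pr at this
            rw [mem_filter, mem_Ioc] at this
            exact this.1.1
          exact_mod_cast (by omega : (Z p).card ≤ p)
        refine h6.trans ?_
        have h9 := hW.lev U (mem_powerset.1 hU) hθ
        calc ∏ p ∈ U, (p : ℝ) = ((∏ p ∈ U, p : ℕ) : ℝ) := by push_cast; rfl
          _ ≤ ((R ^ C : ℕ) : ℝ) := by exact_mod_cast h9
          _ = (R : ℝ) ^ C := by push_cast; rfl
      have h6 := hW.abs U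
      have h7 : θ U * N - X * (θ U * P) = θ U * (N - X * P) := by ring
      have h8 : θ U * (N - X * P) ≤ 1 * Q := by
        calc θ U * (N - X * P) ≤ |θ U * (N - X * P)| := le_abs_self _
          _ = |θ U| * |N - X * P| := abs_mul _ _
          _ ≤ 1 * Q := mul_le_mul h6 h4 (abs_nonneg _) zero_le_one
      linarith
  refine (Finset.sum_le_sum h3).trans ?_
  rw [Finset.sum_add_distrib, ← Finset.mul_sum]
  have h4 : ∑ U ∈ (Pr z R).powerset, θ U * ∏ p ∈ U, ((Z p).card : ℝ) / p = qq Z z R θ := rfl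
  rw [h4]
  have h5 : (X : ℝ) * qq Z z R θ ≤ X * (C * VV Z z R) :=
    mul_le_mul_of_nonneg_left hW.hi (Nat.cast_nonneg _)
  have h6 : ∑ U ∈ (Pr z R).powerset, (if θ U ≠ 0 then (R : ℝ) ^ C else 0) ≤ (R : ℝ) ^ (2 * C) := by
    rw [← Finset.sum_filter, Finset.sum_const, nsmul_eq_mul]
    have h7 : ((Pr z R).powerset.filter (fun U => θ U ≠ 0)).card ≤ R ^ C := by
      have h8 : ((Pr z R).powerset.filter (fun U => θ U ≠ 0)).card ≤ (Icc 1 (R ^ C)).card := by
        apply Finset.card_le_card_of_injOn (fun U => ∏ p ∈ U, p)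
        · intro U hU
          rw [Finset.mem_coe, mem_filter] at hU
          rw [Finset.mem_coe, mem_Icc]
          exact ⟨Finset.prod_pos fun p hp => (hpr U hU.1 p hp).pos, hW.lev U (mem_powerset.1 hU.1) hU.2⟩
        · intro U hU V hV h
          rw [Finset.mem_coe, mem_filter] at hU hV
          simp only at h
          rw [← Nat.primeFactors_prod (hpr U hU.1), ← Nat.primeFactors_prod (hpr V hV.1), h]
      rwa [Nat.card_Icc, Nat.add_sub_cancel] at h8
    have h9 : (((Pr z R).powerset.filter (fun U => θ U ≠ 0)).card : ℝ) ≤ (R : ℝ) ^ C := by exact_mod_cast h7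
    calc (((Pr z R).powerset.filter (fun U => θ U ≠ 0)).card : ℝ) * (R : ℝ) ^ C ≤ (R : ℝ) ^ C * (R : ℝ) ^ C :=
          mul_le_mul_of_nonneg_right h9 (by positivity)
      _ = (R : ℝ) ^ (2 * C) := by rw [← pow_add]; congr 1; ring
  linarith

/-- the four shifts -/
def S4 (a d : ℤ) : Finset ℤ := {0, a, d, a - d}

lemma ne_of {p : ℕ} (hp : 0 < p) {s t : ℤ} (h : ¬ (p : ℤ) ∣ s - t) :
    (s % (p : ℤ)).toNat ≠ (t % (p : ℤ)).toNat := by
  intro he
  apply h
  have hp' : (0 : ℤ) < p := by exact_mod_cast hp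
  have h1 := Int.emod_nonneg s hp'.ne'
  have h2 := Int.emod_nonneg t hp'.ne'
  have h3 : s % (p : ℤ) = t % (p : ℤ) := by omega
  exact Int.ModEq.dvd h3.symm

open Classical in
lemma cl4 {p : ℕ} (hp : 0 < p) (a d : ℤ) : 4 ≤ (Cl (S4 a d) p).card + (if (p : ℤ) ∣ a then 1 else 0) +
    3 * (if (p : ℤ) ∣ d then 1 else 0) + 3 * (if (p : ℤ) ∣ a - d then 1 else 0) +
    3 * (if (p : ℤ) ∣ a - 2 * d then 1 else 0) := by
  obtain ⟨f, hf⟩ : ∃ f : ℤ → ℕ, f = fun s => (s % (p : ℤ)).toNat := ⟨_, rfl⟩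
  have hcl : Cl (S4 a d) p = {f 0, f a, f d, f (a - d)} := by
    unfold Cl S4
    rw [hf]
    simp [image_insert]
  rw [hcl]
  have hne : ∀ s t : ℤ, ¬ (p : ℤ) ∣ s - t → f s ≠ f t := fun s t h => by
    rw [hf]
    exact ne_of hp h
  by_cases h1 : (p : ℤ) ∣ d
  · have : 1 ≤ ({f 0, f a, f d, f (a - d)} : Finset ℕ).card := card_pos.2 ⟨f 0, by simp⟩
    rw [if_pos h1]
    omega
  by_cases h2 : (p : ℤ) ∣ a - d
  · have : 1 ≤ ({f 0, f a, f d, f (a - d)} : Finset ℕ).card := card_pos.2 ⟨f 0, by simp⟩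
    rw [if_pos h2]
    omega
  by_cases h3 : (p : ℤ) ∣ a - 2 * d
  · have : 1 ≤ ({f 0, f a, f d, f (a - d)} : Finset ℕ).card := card_pos.2 ⟨f 0, by simp⟩
    rw [if_pos h3]
    omega
  have n1 : f 0 ≠ f d := hne _ _ (by rw [zero_sub, dvd_neg]; exact h1)
  have n2 : f 0 ≠ f (a - d) := hne _ _ (by rw [zero_sub, dvd_neg]; exact h2)
  have n3 : f d ≠ f (a - d) := hne _ _ (by
    have : d - (a - d) = -(a - 2 * d) := by ring
    rw [this, dvd_neg]; exact h3)
  have n4 : f a ≠ f d := hne _ _ h2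
  have n5 : f a ≠ f (a - d) := hne _ _ (by
    have : a - (a - d) = d := by ring
    rw [this]; exact h1)
  by_cases h4 : (p : ℤ) ∣ a
  · rw [if_pos h4]
    have h5 : ({f 0, f d, f (a - d)} : Finset ℕ) ⊆ {f 0, f a, f d, f (a - d)} := by
      intro x hx
      simp only [mem_insert, mem_singleton] at hx ⊢
      tauto
    have h6 := card_le_card h5
    have h7 : ({f 0, f d, f (a - d)} : Finset ℕ).card = 3 := by
      rw [card_insert_of_notMem (by simp [n1, n2]), card_insert_of_notMem (by simp [n3]), card_singleton]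
    omega
  · have n6 : f 0 ≠ f a := hne _ _ (by rw [zero_sub, dvd_neg]; exact h4)
    have h7 : ({f 0, f a, f d, f (a - d)} : Finset ℕ).card = 4 := by
      rw [card_insert_of_notMem (by simp [n1, n2, n6]), card_insert_of_notMem (by simp [n4, n5]),
        card_insert_of_notMem (by simp [n3]), card_singleton]
    omega

/-- the product over the odd prime divisors -/
noncomputable def AA (a : ℤ) : ℝ := ∏ p ∈ a.natAbs.primeFactors.filter (fun p => 2 < p), (1 - 1 / (p : ℝ))⁻¹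

lemma fac_ge {p : ℕ} (hp : 2 ≤ p) : 1 ≤ (1 - 1 / (p : ℝ))⁻¹ := by
  have h : (2 : ℝ) ≤ p := by exact_mod_cast hp
  rw [one_le_inv₀ (by rw [sub_pos, div_lt_one (by linarith)]; linarith)]
  have : 0 < 1 / (p : ℝ) := by positivity
  linarith

lemma one_le_AA (a : ℤ) : 1 ≤ AA a := by
  unfold AA
  have : ∏ p ∈ a.natAbs.primeFactors.filter (fun p => 2 < p), (1 : ℝ) ≤
      ∏ p ∈ a.natAbs.primeFactors.filter (fun p => 2 < p), (1 - 1 / (p : ℝ))⁻¹ := by
    apply Finset.prod_le_prod (fun _ _ => zero_le_one)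
    intro p hp
    exact fac_ge (Nat.prime_of_mem_primeFactors (mem_filter.1 hp).1).two_le
  simpa using this

lemma pow_lin (c u : ℝ) (hc : 0 ≤ c) (h0 : 0 ≤ u) (h1 : u ≤ 1) (k : ℕ) :
    (1 + c * u) ^ k ≤ 1 + ((1 + c) ^ k - 1) * u := by
  induction k with
  | zero => simp
  | succ k ih =>
    have hM : 0 ≤ (1 + c) ^ k - 1 := by
      have : 1 ≤ (1 + c) ^ k := one_le_pow₀ (by linarith)
      linarith
    calc (1 + c * u) ^ (k + 1) = (1 + c * u) ^ k * (1 + c * u) := pow_succ _ _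
      _ ≤ (1 + ((1 + c) ^ k - 1) * u) * (1 + c * u) := mul_le_mul_of_nonneg_right ih (by positivity)
      _ ≤ 1 + ((1 + c) ^ (k + 1) - 1) * u := by
        have h2 : u * u ≤ u := by nlinarith
        have h3 : 0 ≤ ((1 + c) ^ k - 1) * c := mul_nonneg hM hc
        have h4 : ((1 + c) ^ k - 1) * c * (u * u) ≤ ((1 + c) ^ k - 1) * c * u :=
          mul_le_mul_of_nonneg_left h2 h3
        rw [pow_succ]
        nlinarith

open Classical in
lemma Gd_eq (K z R : ℕ) (h : ℤ) : Gd K (fun _ => {0}) z R h =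
    ∏ p ∈ Pr z R, if (p : ℤ) ∣ h then (1 + (K : ℝ) / p) else 1 := by
  unfold Gd
  rw [← prod_filter]
  apply prod_congr
  · apply filter_congr
    intro p _
    simp
  · intro _ _; rfl

lemma one_le_Gd (K z R : ℕ) (h : ℤ) : 1 ≤ Gd K (fun _ => {0}) z R h := by
  classical
  rw [Gd_eq]
  have : ∏ p ∈ Pr z R, (1 : ℝ) ≤ ∏ p ∈ Pr z R, if (p : ℤ) ∣ h then (1 + (K : ℝ) / p) else 1 := by
    apply Finset.prod_le_prod (fun _ _ => zero_le_one)
    intro p _
    split_ifs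
    · have : 0 ≤ (K : ℝ) / p := by positivity
      linarith
    · exact le_rfl
  simpa using this

lemma Gd_six (K z R : ℕ) (h : ℤ) : Gd K (fun _ => {0}) z R h ^ 6 ≤ Gd ((1 + K) ^ 6) (fun _ => {0}) z R h := by
  classical
  rw [Gd_eq, Gd_eq, ← prod_pow]
  apply Finset.prod_le_prod
  · intro p _
    split_ifs <;> positivity
  · intro p hp
    split_ifs
    · have hp1 : (1 : ℝ) ≤ p := by
        unfold Pr at hp
        exact_mod_cast (mem_filter.1 hp).2.one_lt.le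
      have h1 := pow_lin K (1 / p) (Nat.cast_nonneg _) (by positivity) (by
        rw [div_le_one (by linarith)]; exact hp1) 6
      have h2 : (K : ℝ) * (1 / p) = K / p := by ring
      rw [h2] at h1
      refine h1.trans ?_
      push_cast
      have h3 : ((1 + (K : ℝ)) ^ 6 - 1) * (1 / p) ≤ (1 + (K : ℝ)) ^ 6 / p := by
        rw [mul_one_div]
        apply div_le_div_of_nonneg_right _ (by linarith)
        linarith
      linarith
    · norm_num

open Classical in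
/-- the sieve product of the four shifts -/
lemma VV4 (a d : ℤ) (ha : a ≠ 0) (z R : ℕ) (hz : 4 ≤ z) :
    VV (Cl (S4 a d)) z R ≤ VV (fun _ => {0}) z R ^ 4 * (AA a *
      (Gd 26 (fun _ => {0}) z R d * Gd 26 (fun _ => {0}) z R (a - d) *
        Gd 26 (fun _ => {0}) z R (a - 2 * d))) := by
  have hpr : ∀ p ∈ Pr z R, p.Prime ∧ z < p := by
    intro p hp
    unfold Pr at hp
    rw [mem_filter, mem_Ioc] at hp
    exact ⟨hp.2, hp.1.1⟩
  -- the factors
  obtain ⟨g, hg⟩ : ∃ g : ℤ → ℕ → ℝ, g = fun (h : ℤ) (p : ℕ) => if (p : ℤ) ∣ h then (1 + (26 : ℝ) / p) else 1 := ⟨_, rfl⟩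
  obtain ⟨e, he⟩ : ∃ e : ℕ → ℝ, e = fun (p : ℕ) => if (p : ℤ) ∣ a then (1 - 1 / (p : ℝ))⁻¹ else 1 := ⟨_, rfl⟩
  have h1 : VV (Cl (S4 a d)) z R ≤ ∏ p ∈ Pr z R, ((1 - 1 / (p : ℝ)) ^ 4 * (e p *
      (g d p * g (a - d) p * g (a - 2 * d) p))) := by
    unfold VV
    apply Finset.prod_le_prod
    · intro p hp
      obtain ⟨hp1, hp2⟩ := hpr p hp
      have hpos : (0 : ℝ) < p := by exact_mod_cast hp1.pos
      rw [sub_nonneg, div_le_one hpos]
      have h2 : (S4 a d).card ≤ 4 := by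
        unfold S4
        refine (card_insert_le _ _).trans ?_
        refine Nat.succ_le_succ ((card_insert_le _ _).trans ?_)
        refine Nat.succ_le_succ ((card_insert_le _ _).trans ?_)
        simp
      exact_mod_cast ((Cl_card (S4 a d) p).trans h2).trans (by omega)
    · intro p hp
      obtain ⟨hp1, hp2⟩ := hpr p hp
      have hpos : (0 : ℝ) < p := by exact_mod_cast hp1.pos
      have hp5 : (5 : ℝ) ≤ p := by exact_mod_cast (by omega : 5 ≤ p)
      obtain ⟨x, hx⟩ : ∃ x : ℝ, x = 1 - 1 / (p : ℝ) := ⟨_, rfl⟩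
      have hx1 : x ≤ 1 := by
        rw [hx]
        have : 0 < 1 / (p : ℝ) := by positivity
        linarith
      have hx0 : 4 / 5 ≤ x := by
        rw [hx]
        have : 1 / (p : ℝ) ≤ 1 / 5 := by
          apply one_div_le_one_div_of_le (by norm_num) hp5
        linarith
      have hxpos : 0 < x := by linarith
      have hbern : 1 - ((Cl (S4 a d) p).card : ℝ) / p ≤ x ^ (Cl (S4 a d) p).card := by
        have := one_add_mul_le_pow (show (-2 : ℝ) ≤ -(1 / (p : ℝ)) by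
          have : 1 / (p : ℝ) ≤ 1 := by rw [div_le_one hpos]; linarith
          linarith) (Cl (S4 a d) p).card
        rw [hx]
        calc 1 - ((Cl (S4 a d) p).card : ℝ) / p = 1 + ((Cl (S4 a d) p).card : ℝ) * -(1 / (p : ℝ)) := by ring
          _ ≤ (1 + -(1 / (p : ℝ))) ^ (Cl (S4 a d) p).card := this
          _ = _ := by rw [← sub_eq_add_neg]
      refine hbern.trans ?_
      have h4 := cl4 hp1.pos a d
      obtain ⟨k, hk⟩ : ∃ k, k = (Cl (S4 a d) p).card := ⟨_, rfl⟩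
      obtain ⟨e0, he0⟩ : ∃ e0 : ℕ, e0 = if (p : ℤ) ∣ a then 1 else 0 := ⟨_, rfl⟩
      obtain ⟨e1, he1⟩ : ∃ e1 : ℕ, e1 = if (p : ℤ) ∣ d then 1 else 0 := ⟨_, rfl⟩
      obtain ⟨e2, he2⟩ : ∃ e2 : ℕ, e2 = if (p : ℤ) ∣ a - d then 1 else 0 := ⟨_, rfl⟩
      obtain ⟨e3, he3⟩ : ∃ e3 : ℕ, e3 = if (p : ℤ) ∣ a - 2 * d then 1 else 0 := ⟨_, rfl⟩
      rw [← hk, ← he0, ← he1, ← he2, ← he3] at h4
      rw [← hk, ← hx]
      have h5 : x ^ k * (x ^ e0 * x ^ (3 * e1) * x ^ (3 * e2) * x ^ (3 * e3)) ≤ x ^ 4 := by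
        rw [← pow_add, ← pow_add, ← pow_add, ← pow_add]
        exact pow_le_pow_of_le_one hxpos.le hx1 (by omega)
      have h6 : x ^ k ≤ x ^ 4 * ((x⁻¹) ^ e0 * (x⁻¹) ^ (3 * e1) * (x⁻¹) ^ (3 * e2) * (x⁻¹) ^ (3 * e3)) := by
        have h7 : x ^ k = (x ^ k * (x ^ e0 * x ^ (3 * e1) * x ^ (3 * e2) * x ^ (3 * e3))) *
            ((x⁻¹) ^ e0 * (x⁻¹) ^ (3 * e1) * (x⁻¹) ^ (3 * e2) * (x⁻¹) ^ (3 * e3)) := by
          rw [inv_pow, inv_pow, inv_pow, inv_pow]
          field_simp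
        rw [h7]
        exact mul_le_mul_of_nonneg_right h5 (by positivity)
      refine h6.trans ?_
      apply mul_le_mul_of_nonneg_left _ (by positivity)
      have hxinv : 1 ≤ x⁻¹ := by rw [one_le_inv₀ hxpos]; exact hx1
      have hxinv2 : x⁻¹ ≤ 1 + 2 * (1 / (p : ℝ)) := by
        rw [hx, inv_le_comm₀ (by rw [← hx]; exact hxpos) (by positivity)]
        rw [inv_le_iff_one_le_mul₀ (by positivity)]
        have h8 : 1 / (p : ℝ) ≤ 1 / 5 := one_div_le_one_div_of_le (by norm_num) hp5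
        have h9 : 0 < 1 / (p : ℝ) := by positivity
        nlinarith
      have h3 : ∀ (h : ℤ) (i : ℕ), (i = if (p : ℤ) ∣ h then 1 else 0) → (x⁻¹) ^ (3 * i) ≤ g h p ∧ 0 ≤ (x⁻¹) ^ (3 * i) := by
        intro h i hi
        refine ⟨?_, by positivity⟩
        rw [hg]
        simp only
        split_ifs at hi ⊢ with hd
        · rw [hi, mul_one]
          have h8 := pow_lin 2 (1 / p) (by norm_num) (by positivity) (by
            rw [div_le_one hpos]; linarith) 3
          calc x⁻¹ ^ 3 ≤ (1 + 2 * (1 / (p : ℝ))) ^ 3 := pow_le_pow_left₀ (by positivity) hxinv2 3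
            _ ≤ 1 + ((1 + 2) ^ 3 - 1) * (1 / p) := h8
            _ = 1 + 26 / p := by ring
        · rw [hi]; simp
      obtain ⟨b1, b1'⟩ := h3 d e1 he1
      obtain ⟨b2, b2'⟩ := h3 (a - d) e2 he2
      obtain ⟨b3, b3'⟩ := h3 (a - 2 * d) e3 he3
      have b0 : (x⁻¹) ^ e0 = e p := by
        rw [he, he0]
        simp only
        split_ifs
        · rw [pow_one, hx]
        · rw [pow_zero]
      rw [b0]
      have hep : 0 ≤ e p := by rw [← b0]; positivity
      calc e p * x⁻¹ ^ (3 * e1) * x⁻¹ ^ (3 * e2) * x⁻¹ ^ (3 * e3)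
          = e p * (x⁻¹ ^ (3 * e1) * x⁻¹ ^ (3 * e2) * x⁻¹ ^ (3 * e3)) := by ring
        _ ≤ e p * (g d p * g (a - d) p * g (a - 2 * d) p) := by
          apply mul_le_mul_of_nonneg_left _ hep
          apply mul_le_mul _ b3 b3' (mul_nonneg (b1'.trans b1) (b2'.trans b2))
          exact mul_le_mul b1 b2 b2' (b1'.trans b1)
  refine h1.trans (le_of_eq_of_le (b := VV (fun _ => {0}) z R ^ 4 * ((∏ p ∈ Pr z R, e p) *
      (Gd 26 (fun _ => {0}) z R d * Gd 26 (fun _ => {0}) z R (a - d) *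
        Gd 26 (fun _ => {0}) z R (a - 2 * d)))) ?_ ?_)
  · rw [Gd_eq, Gd_eq, Gd_eq]
    unfold VV
    rw [prod_mul_distrib, prod_mul_distrib, prod_mul_distrib, prod_mul_distrib, prod_pow, hg]
    simp
  · apply mul_le_mul_of_nonneg_left _ (by positivity)
    apply mul_le_mul_of_nonneg_right _ (by
      have := one_le_Gd 26 z R d
      have := one_le_Gd 26 z R (a - d)
      have := one_le_Gd 26 z R (a - 2 * d)
      positivity)
    rw [he]
    simp only
    rw [← prod_filter]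
    unfold AA
    have hsub : (Pr z R).filter (fun p : ℕ => (p : ℤ) ∣ a) ⊆ a.natAbs.primeFactors.filter (fun p : ℕ => 2 < p) := by
      intro p hp
      rw [mem_filter] at hp ⊢
      obtain ⟨hp1, hp2⟩ := hpr p hp.1
      refine ⟨Nat.mem_primeFactors.2 ⟨hp1, ?_, by simpa using ha⟩, by omega⟩
      exact Int.natCast_dvd.1 hp.2
    rw [← prod_sdiff hsub]
    have h8 : 1 ≤ ∏ p ∈ a.natAbs.primeFactors.filter (fun p : ℕ => 2 < p) \ (Pr z R).filter (fun p : ℕ => (p : ℤ) ∣ a),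
        (1 - 1 / (p : ℝ))⁻¹ := by
      have h9 : ∏ p ∈ a.natAbs.primeFactors.filter (fun p : ℕ => 2 < p) \ (Pr z R).filter (fun p : ℕ => (p : ℤ) ∣ a), (1 : ℝ) ≤
          ∏ p ∈ a.natAbs.primeFactors.filter (fun p : ℕ => 2 < p) \ (Pr z R).filter (fun p : ℕ => (p : ℤ) ∣ a),
        (1 - 1 / (p : ℝ))⁻¹ := by
        apply Finset.prod_le_prod (fun _ _ => zero_le_one)
        intro p hp
        exact fac_ge (Nat.prime_of_mem_primeFactors (mem_filter.1 (mem_sdiff.1 hp).1).1).two_le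
      simpa using h9
    have h10 : 0 ≤ ∏ p ∈ (Pr z R).filter (fun p : ℕ => (p : ℤ) ∣ a), (1 - 1 / (p : ℝ))⁻¹ := by
      apply Finset.prod_nonneg
      intro p hp
      have := fac_ge (hpr p (mem_filter.1 hp).1).1.two_le
      linarith
    exact le_mul_of_one_le_left h10 h8

end Pool.Agent.X35.GG
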