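import Pool.Agent.W93.GB4
import Pool.Agent.H373R2.T7.SingLow
import Pool.Agent.H560R3.GB.Tup3
import Pool.Agent.X35.GG.Up

/-!
# Lower bounds for the number of neighbours: preparations
-/

set_option autoImplicit false

open Finset Filter

namespace Pool.Agent.X35.GG

open Pool.Agent.W93.GB Pool.Agent.H560R3.GB
open Pool.Agent.H373R2.T7 (nuP nuP_eq rhoP singZ Admissible)

/-- an odd prime -/
def OP (u : ℕ) : Prop := u.Prime ∧ u ≠ 2

/-- adjacency -/
def Ad (a b : ℕ) : Prop := a ≠ b ∧ OP ((a + b) / 2) ∧ OP (((a : ℤ) - b).natAbs / 2)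

open Classical in
/-- the neighbours of `a` -/
noncomputable def Nb (n a : ℕ) : Finset ℕ := (Icc 2 (2 * n)).filter (fun b => 2 ∣ b ∧ Ad a b)

lemma Ad.symm {a b : ℕ} (h : Ad a b) : Ad b a := by
  refine ⟨h.1.symm, by rw [Nat.add_comm]; exact h.2.1, ?_⟩
  have : ((b : ℤ) - a).natAbs = ((a : ℤ) - b).natAbs := by
    rw [← Int.natAbs_neg, neg_sub]
  rw [this]
  exact h.2.2

lemma inv_le_dv (p : ℕ) (hp : 2 < p) : (1 - 1 / (p : ℝ))⁻¹ ≤ dv p := by
  have h : (3 : ℝ) ≤ p := by exact_mod_cast hp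
  unfold dv
  have h1 : (1 - 1 / (p : ℝ))⁻¹ = p / (p - 1) := by
    have h2 : (p : ℝ) ≠ 0 := by linarith
    rw [← inv_div]
    field_simp
  rw [h1, div_le_div_iff₀ (by linarith) (by linarith)]
  nlinarith

lemma AA_le_prod (n : ℕ) (S : Finset ℕ) (hS : n.primeFactors.filter (fun p => 2 < p) = S) :
    AA (n : ℤ) ≤ ∏ p ∈ S, dv p := by
  unfold AA
  rw [Int.natAbs_natCast, hS]
  apply Finset.prod_le_prod
  · intro p hp
    rw [← hS, mem_filter] at hp
    have h : (3 : ℝ) ≤ p := by exact_mod_cast hp.2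
    rw [inv_nonneg, sub_nonneg, div_le_one (by linarith)]
    linarith
  · intro p hp
    rw [← hS, mem_filter] at hp
    exact inv_le_dv p hp.2

lemma AA_le_sing (n : ℕ) : AA (n : ℤ) ≤ sing n := by
  rw [sing_eq]
  have h1 := AA_le_prod n _ rfl
  have h2 := C2_half
  have h3 := one_le_AA (n : ℤ)
  calc AA (n : ℤ) ≤ ∏ p ∈ n.primeFactors.filter (fun p => 2 < p), dv p := h1
    _ = 1 * ∏ p ∈ n.primeFactors.filter (fun p => 2 < p), dv p := (one_mul _).symm
    _ ≤ _ := mul_le_mul_of_nonneg_right (by linarith) (by linarith)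

lemma nuP_one (c : ℤ) (p : ℕ) (hp : p.Prime) : nuP (fun _ : Fin 1 => c) p = if (p : ℤ) ∣ c then 1 else 2 := by
  rw [nuP_eq _ _ hp]
  unfold rhoP
  have hp0 : (0 : ℤ) < p := by exact_mod_cast hp.pos
  split_ifs with h
  · have : (range p).filter (fun r : ℕ => ¬ p ∣ r ∧ ∃ _i : Fin 1, (p : ℤ) ∣ (r : ℤ) + c) = ∅ := by
      rw [filter_eq_empty_iff]
      rintro r _ ⟨h1, ⟨_, h2⟩⟩
      apply h1
      have h4 := dvd_sub h2 h
      rw [add_sub_cancel_right] at h4
      exact_mod_cast h4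
    rw [this, card_empty]
  · have h1 : 0 ≤ (-c) % (p : ℤ) := Int.emod_nonneg _ hp0.ne'
    have h2 : (-c) % (p : ℤ) < p := Int.emod_lt_of_pos _ hp0
    have h3 : (((-c) % (p : ℤ)).toNat : ℤ) = (-c) % (p : ℤ) := Int.toNat_of_nonneg h1
    have : (range p).filter (fun r : ℕ => ¬ p ∣ r ∧ ∃ _i : Fin 1, (p : ℤ) ∣ (r : ℤ) + c) =
        {((-c) % (p : ℤ)).toNat} := by
      ext r
      rw [mem_filter, mem_range, mem_singleton]
      constructor
      · rintro ⟨h4, _, ⟨_, h5⟩⟩
        have h6 : (r : ℤ) % p = (-c) % p := by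
          apply Int.ModEq.symm
          apply Int.modEq_iff_dvd.2
          have : (r : ℤ) - -c = (r : ℤ) + c := by ring
          rw [this]; exact h5
        have h7 : (r : ℤ) % p = r := Int.emod_eq_of_lt (by omega) (by exact_mod_cast h4)
        rw [h7] at h6
        rw [← h6]
        simp
      · intro hr
        have h4 : (r : ℤ) = (-c) % (p : ℤ) := by rw [hr, h3]
        have h8 : (p : ℤ) ∣ (r : ℤ) + c := by
          have h5 : (-c) % (p : ℤ) ≡ -c [ZMOD p] := Int.mod_modEq _ _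
          have h6 := Int.modEq_iff_dvd.1 h5.symm
          rw [h4]
          have e : (-c) % (p : ℤ) + c = (-c) % (p : ℤ) - -c := by ring
          rw [e]; exact h6
        refine ⟨by omega, ?_, 0, h8⟩
        intro h5
        apply h
        have h6 : (p : ℤ) ∣ (r : ℤ) := by exact_mod_cast h5
        exact (dvd_add_right h6).1 h8
    rw [this, card_singleton]

lemma singZ_pl (n z : ℕ) : singZ (fun _ : Fin 1 => (n : ℤ)) z = singZ (sh n) z := by
  unfold singZ
  apply prod_congr rfl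
  intro p hp
  rw [mem_filter] at hp
  rw [nuP_one _ _ hp.2, nuP_sh n p hp.2]
  simp only [Int.natCast_dvd_natCast]

lemma AA_le_lim (n : ℕ) (hn : 2 ∣ n) (hn0 : n ≠ 0) (S : ℝ)
    (hS : Tendsto (fun z => singZ (fun _ : Fin 1 => (n : ℤ)) z) atTop (nhds S)) : AA (n : ℤ) ≤ S := by
  apply ge_of_tendsto hS
  filter_upwards [eventually_ge_atTop (n + 2)] with z hz
  rw [singZ_pl, singZ_sh n z hn hn0 (by omega)]
  have e : n.primeFactors.filter (fun p => 2 < p) = n.primeFactors.filter (fun p => 2 < p ∧ p ≤ z) := by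
    apply filter_congr
    intro p hp
    have : p ≤ n := Nat.le_of_mem_primeFactors hp
    constructor
    · intro h; exact ⟨h, by omega⟩
    · intro h; exact h.1
  have h1 := AA_le_prod n _ e
  have h2 := C2_half
  have h3 := one_le_AA (n : ℤ)
  have h4 := C2_le z
  calc AA (n : ℤ) ≤ ∏ p ∈ n.primeFactors.filter (fun p => 2 < p ∧ p ≤ z), dv p := h1
    _ = 1 * ∏ p ∈ n.primeFactors.filter (fun p => 2 < p ∧ p ≤ z), dv p := (one_mul _).symm
    _ ≤ _ := mul_le_mul_of_nonneg_right (by linarith) (by linarith)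

lemma adm_one (n : ℕ) (hn : 2 ∣ n) : Admissible (fun _ : Fin 1 => (n : ℤ)) := by
  intro p hp
  rcases Nat.lt_or_ge 2 p with h | h
  · by_cases h1 : (p : ℤ) ∣ 1 + (n : ℤ)
    · refine ⟨2, ?_, fun _ => ?_⟩
      · intro h2
        have := Int.le_of_dvd (by norm_num) h2
        omega
      · intro h2
        have h3 := dvd_sub h2 h1
        have e : (2 : ℤ) + n - (1 + n) = 1 := by ring
        rw [e] at h3
        have := Int.le_of_dvd (by norm_num) h3
        omega
    · refine ⟨1, ?_, fun _ => h1⟩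
      intro h2
      have := Int.le_of_dvd (by norm_num) h2
      omega
  · have h2 : p = 2 := by have := hp.two_le; omega
    subst h2
    refine ⟨1, by norm_num, fun _ => ?_⟩
    push_cast
    omega

/-- neighbours from sums of two primes -/
lemma nb_sum (n a : ℕ) (h2 : 2 ∣ a) (ha : a ≤ 2 * n) : g a ≤ 2 * (Nb n a).card + 3 := by
  classical
  set Q := (antidiagonal a).filter (fun q : ℕ × ℕ => q.1.Prime ∧ q.2.Prime) with hQ
  have h1 : Q ⊆ (Q.filter (fun q => q.2 < q.1 ∧ 2 < q.2) ∪ Q.filter (fun q => q.1 < q.2 ∧ 2 < q.1)) ∪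
      {(a / 2, a / 2), (2, a - 2), (a - 2, 2)} := by
    intro q hq
    have hq' := hq
    rw [hQ, mem_filter, HasAntidiagonal.mem_antidiagonal] at hq'
    have a1 := hq'.2.1.two_le
    have a2 := hq'.2.2.two_le
    rw [mem_union, mem_union, mem_insert, mem_insert, mem_singleton]
    rcases lt_trichotomy q.1 q.2 with h | h | h
    · by_cases h3 : 2 < q.1
      · exact Or.inl (Or.inr (mem_filter.2 ⟨hq, h, h3⟩))
      · right; right; left
        ext <;> simp only <;> omega
    · right; left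
      ext <;> simp only <;> omega
    · by_cases h3 : 2 < q.2
      · exact Or.inl (Or.inl (mem_filter.2 ⟨hq, h, h3⟩))
      · right; right; right
        ext <;> simp only <;> omega
  have h3 : (Q.filter (fun q => q.1 < q.2 ∧ 2 < q.1)).card ≤ (Q.filter (fun q => q.2 < q.1 ∧ 2 < q.2)).card := by
    apply card_le_card_of_injOn Prod.swap
    · intro q hq
      rw [mem_coe, mem_filter, hQ, mem_filter, HasAntidiagonal.mem_antidiagonal] at hq
      rw [mem_coe, mem_filter, hQ, mem_filter, HasAntidiagonal.mem_antidiagonal]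
      exact ⟨⟨by rw [Prod.fst_swap, Prod.snd_swap]; omega, hq.1.2.2, hq.1.2.1⟩, hq.2⟩
    · intro x _ y _ h
      exact Prod.swap_injective h
  have h4 : (Q.filter (fun q => q.2 < q.1 ∧ 2 < q.2)).card ≤ (Nb n a).card := by
    apply card_le_card_of_injOn (fun q => q.1 - q.2)
    · intro q hq
      rw [mem_coe, mem_filter, hQ, mem_filter, HasAntidiagonal.mem_antidiagonal] at hq
      obtain ⟨⟨b1, b2, b3⟩, b4, b5⟩ := hq
      unfold Nb
      rw [mem_coe, mem_filter, mem_Icc]
      have c1 := b2.eq_two_or_odd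
      have c2 := b3.eq_two_or_odd
      have e1 : (a + (q.1 - q.2)) / 2 = q.1 := by omega
      have e2 : ((a : ℤ) - ((q.1 - q.2 : ℕ) : ℤ)).natAbs / 2 = q.2 := by omega
      show (2 ≤ q.1 - q.2 ∧ q.1 - q.2 ≤ 2 * n) ∧ 2 ∣ q.1 - q.2 ∧ a ≠ q.1 - q.2 ∧ OP ((a + (q.1 - q.2)) / 2) ∧
        OP (((a : ℤ) - ((q.1 - q.2 : ℕ) : ℤ)).natAbs / 2)
      refine ⟨by omega, by omega, by omega, ?_, ?_⟩
      · rw [e1]; exact ⟨b2, by omega⟩
      · rw [e2]; exact ⟨b3, by omega⟩
    · intro x hx y hy h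
      rw [mem_coe, mem_filter, hQ, mem_filter, HasAntidiagonal.mem_antidiagonal] at hx hy
      simp only at h
      have := hx.2.1
      have := hy.2.1
      have := hx.1.1
      have := hy.1.1
      ext <;> omega
  have h5 := card_le_card h1
  have h6 := card_union_le (Q.filter (fun q => q.2 < q.1 ∧ 2 < q.2) ∪ Q.filter (fun q => q.1 < q.2 ∧ 2 < q.1))
    {(a / 2, a / 2), (2, a - 2), (a - 2, 2)}
  have h7 := card_union_le (Q.filter (fun q => q.2 < q.1 ∧ 2 < q.2)) (Q.filter (fun q => q.1 < q.2 ∧ 2 < q.1))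
  have h8 : ({(a / 2, a / 2), (2, a - 2), (a - 2, 2)} : Finset (ℕ × ℕ)).card ≤ 3 := card_le_three
  have h9 : g a = Q.card := rfl
  omega

/-- neighbours from differences of primes -/
lemma nb_diff (n a N : ℕ) (h2 : 2 ∣ a) (ha0 : a ≠ 0) (ha : a + 2 * N ≤ 2 * n) :
    primeTuples (fun _ : Fin 1 => a) N ≤ (Nb n a).card := by
  classical
  unfold primeTuples
  apply card_le_card_of_injOn (fun p => a + 2 * p)
  · intro p hp
    rw [mem_coe, mem_filter, mem_Icc] at hp
    obtain ⟨⟨b1, b2⟩, b3, b4⟩ := hp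
    have b5 : (p + a).Prime := b4 0
    unfold Nb
    rw [mem_coe, mem_filter, mem_Icc]
    have c1 := b3.eq_two_or_odd
    have c2 := b5.eq_two_or_odd
    have e1 : (a + (a + 2 * p)) / 2 = p + a := by omega
    have e2 : ((a : ℤ) - ((a + 2 * p : ℕ) : ℤ)).natAbs / 2 = p := by omega
    have c3 := b3.two_le
    show (2 ≤ a + 2 * p ∧ a + 2 * p ≤ 2 * n) ∧ 2 ∣ a + 2 * p ∧ a ≠ a + 2 * p ∧ OP ((a + (a + 2 * p)) / 2) ∧
      OP (((a : ℤ) - ((a + 2 * p : ℕ) : ℤ)).natAbs / 2)
    have c4 : p ≠ 2 := by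
      rintro rfl
      omega
    refine ⟨by omega, by omega, by omega, ?_, ?_⟩
    · rw [e1]; exact ⟨b5, by omega⟩
    · rw [e2]; exact ⟨b3, c4⟩
  · intro x _ y _ h
    simp only at h
    omega

end Pool.Agent.X35.GG
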