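import Pool.Agent.X35.GG.Up

/-!
# Upper bound for the number of common neighbours: the final form
-/

set_option autoImplicit false

open Finset Filter

namespace Pool.Agent.X35.GG

open Pool.Agent.Y843.HS (Pr Sv VV Th qq Wt Gd)

lemma ev_log (k : ℕ) : ∃ n₀ : ℕ, ∀ n : ℕ, n₀ ≤ n → Real.log n ^ k ≤ √(n : ℝ) ∧ 1 ≤ Real.log n := by
  have h1 : (fun x : ℝ => Real.log x ^ k) =o[atTop] (fun x : ℝ => x ^ (1 / 2 : ℝ)) := by
    have := isLittleO_log_rpow_rpow_atTop (k : ℝ) (show (0 : ℝ) < 1 / 2 by norm_num)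
    simpa [Real.rpow_natCast] using this
  have h2 := (h1.bound one_pos)
  have h3 := tendsto_natCast_atTop_atTop (R := ℝ)
  have h4 := h3.eventually h2
  have h5 := (Real.tendsto_log_atTop.comp h3).eventually_ge_atTop 1
  obtain ⟨n₀, hn₀⟩ := eventually_atTop.1 (h4.and h5)
  refine ⟨n₀, fun n hn => ?_⟩
  obtain ⟨h6, h7⟩ := hn₀ n hn
  simp only [Function.comp] at h7
  refine ⟨?_, h7⟩
  rw [one_mul, Real.norm_of_nonneg (by positivity), Real.norm_of_nonneg (by positivity),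
    ← Real.sqrt_eq_rpow] at h6
  exact h6

lemma near_card (s : ℤ) (R X : ℕ) : ((Ioc 0 X).filter (fun t : ℕ => ((t : ℤ) - s).natAbs ≤ R)).card ≤ 2 * R + 1 := by
  have h1 : ((Ioc 0 X).filter (fun t : ℕ => ((t : ℤ) - s).natAbs ≤ R)).card ≤ (Icc (s - R) (s + R)).card := by
    apply card_le_card_of_injOn (fun t : ℕ => (t : ℤ))
    · intro t ht
      rw [mem_coe, mem_filter] at ht
      rw [mem_coe, mem_Icc]
      have := ht.2
      show s - R ≤ (t : ℤ) ∧ (t : ℤ) ≤ s + R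
      omega
    · intro x _ y _ h
      simpa using h
  rw [Int.card_Icc] at h1
  omega

/-- **Upper bound for common neighbours.** -/
theorem up_main : ∃ C : ℝ, 0 < C ∧ ∃ n₀ : ℕ, ∀ n : ℕ, n₀ ≤ n → ∃ F : ℤ → ℤ → ℝ,
    (∀ a d : ℤ, a ≠ 0 → ∀ B : Finset ℕ, B ⊆ Ioc 0 (2 * n) →
      (∀ t ∈ B, ∀ s ∈ S4 a d, ((t : ℤ) - s).natAbs.Prime) → (B.card : ℝ) ≤ F a d) ∧
    (∀ a : ℤ, a ≠ 0 → |a| ≤ 2 * n → ∑ d ∈ Icc (-(2 * n : ℤ)) (2 * n), F a d ^ 2 ≤
      C * (n ^ 3 / Real.log n ^ 8) * AA a ^ 2) := by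
  classical
  obtain ⟨C1, hC1, hTH⟩ := Pool.Agent.Y257.HS.s_TH 4
  obtain ⟨CM, hCM⟩ := Pool.Agent.Helper256.KM.mertens_inv
  obtain ⟨s₀, B₀, X₀, hgav⟩ := Pool.Agent.Y79.HS.gav 1 ((1 + 26) ^ 6) 1 one_pos
  obtain ⟨J0, hJ0⟩ : ∃ J0, J0 = C1 + s₀ + 2 := ⟨_, rfl⟩
  obtain ⟨z, hz⟩ : ∃ z, z = 2 ^ 2 ^ J0 := ⟨_, rfl⟩
  have hJz : J0 < z := by
    rw [hz]
    exact lt_trans Nat.lt_two_pow_self (Nat.pow_lt_pow_right (by norm_num) Nat.lt_two_pow_self)
  have hz4 : 4 ≤ z := by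
    rw [hz]
    calc 4 = 2 ^ 2 := by norm_num
      _ ≤ 2 ^ 2 ^ J0 := Nat.pow_le_pow_right (by norm_num) (by
        calc 2 = 2 ^ 1 := by norm_num
          _ ≤ 2 ^ J0 := Nat.pow_le_pow_right (by norm_num) (by omega))
  obtain ⟨V0, hV0⟩ : ∃ V0 : ℝ, V0 = Real.exp (2 * CM) * 2 ^ J0 * (16 * C1) := ⟨_, rfl⟩
  have hC1r : (1 : ℝ) ≤ C1 := by exact_mod_cast hC1
  have hV0pos : 0 < V0 := by rw [hV0]; positivity
  obtain ⟨K, hK⟩ : ∃ K : ℝ, K = 2 * C1 * V0 ^ 4 + 1 := ⟨_, rfl⟩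
  have hKpos : 0 < K := by rw [hK]; positivity
  obtain ⟨n1, hn1⟩ := ev_log B₀
  obtain ⟨n2, hn2⟩ := ev_log 5
  obtain ⟨T, hT⟩ : ∃ T : ℕ, T = 2 ^ (8 * C1 * 2 ^ J0) := ⟨_, rfl⟩
  refine ⟨27 * K ^ 2, by positivity, n1 + n2 + X₀ + T + Nat.ceil (Real.exp 13) + 3, ?_⟩
  intro n hn
  obtain ⟨hl1, hlog1⟩ := hn1 n (by omega)
  obtain ⟨hl2, _⟩ := hn2 n (by omega)
  have hn0 : (0 : ℝ) < n := by exact_mod_cast (by omega : 0 < n)
  have hlog0 : 0 < Real.log n := by linarith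
  have hlog13 : 13 ≤ Real.log n := by
    rw [Real.le_log_iff_exp_le hn0]
    exact (Nat.le_ceil _).trans (by exact_mod_cast (by omega : Nat.ceil (Real.exp 13) ≤ n))
  have hn0' : n ≠ 0 := by omega
  -- the level
  obtain ⟨m, hm⟩ : ∃ m, m = Nat.log 2 n := ⟨_, rfl⟩
  have hm1 : 2 ^ m ≤ n := by rw [hm]; exact Nat.pow_log_le_self 2 hn0'
  have hm2 : n < 2 ^ (m + 1) := by rw [hm]; exact Nat.lt_pow_succ_log_self (by norm_num) n
  have hmlow : 8 * C1 * 2 ^ J0 ≤ m := by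
    rw [hm]
    exact (Nat.le_log_iff_pow_le (by norm_num) hn0').2 (by rw [← hT]; omega)
  obtain ⟨q, hq⟩ : ∃ q, q = m / (8 * C1) := ⟨_, rfl⟩
  have hq1 : 2 ^ J0 ≤ q := by
    rw [hq, Nat.le_div_iff_mul_le (by omega)]
    linarith
  have hq0 : q ≠ 0 := by
    have : 0 < 2 ^ J0 := by positivity
    omega
  obtain ⟨J, hJ⟩ : ∃ J, J = Nat.log 2 q := ⟨_, rfl⟩
  have hJ1 : 2 ^ J ≤ q := by rw [hJ]; exact Nat.pow_log_le_self 2 hq0
  have hJ2 : q < 2 ^ (J + 1) := by rw [hJ]; exact Nat.lt_pow_succ_log_self (by norm_num) q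
  have hJlow : J0 ≤ J := by
    rw [hJ]
    exact (Nat.le_log_iff_pow_le (by norm_num) hq0).2 hq1
  obtain ⟨R, hR⟩ : ∃ R, R = 2 ^ 2 ^ J := ⟨_, rfl⟩
  have hR1 : 1 ≤ R := by rw [hR]; exact Nat.one_le_two_pow
  have hRn : R ^ (8 * C1) ≤ n := by
    rw [hR, ← pow_mul]
    refine le_trans (Nat.pow_le_pow_right (by norm_num) ?_) hm1
    calc 2 ^ J * (8 * C1) ≤ q * (8 * C1) := Nat.mul_le_mul_right _ hJ1
      _ ≤ m := by rw [hq]; exact Nat.div_mul_le_self m (8 * C1)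
  have hRn' : R ≤ n := by
    refine le_trans ?_ hRn
    calc R = R ^ 1 := (pow_one R).symm
      _ ≤ R ^ (8 * C1) := Nat.pow_le_pow_right hR1 (by omega)
  have hRr : (1 : ℝ) ≤ R := by exact_mod_cast hR1
  have hRsq : (R : ℝ) ^ (2 * C1) ≤ √(n : ℝ) := by
    apply Real.le_sqrt_of_sq_le
    rw [← pow_mul]
    calc (R : ℝ) ^ (2 * C1 * 2) ≤ (R : ℝ) ^ (8 * C1) := pow_le_pow_right₀ hRr (by omega)
      _ ≤ n := by exact_mod_cast hRn
  have hRle : (R : ℝ) ≤ (R : ℝ) ^ (2 * C1) := by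
    calc (R : ℝ) = (R : ℝ) ^ 1 := (pow_one _).symm
      _ ≤ _ := pow_le_pow_right₀ hRr (by omega)
  have hlogJ : Real.log n ≤ 16 * C1 * 2 ^ J := by
    have h1 : Real.log n ≤ m + 1 := by
      have h2 : (n : ℝ) ≤ 2 ^ (m + 1) := by exact_mod_cast hm2.le
      have h3 := Real.log_le_log hn0 h2
      rw [Real.log_pow] at h3
      have h4 : Real.log 2 ≤ 1 := by
        have := Real.log_two_lt_d9
        linarith
      push_cast at h3
      nlinarith
    have h2 : m + 1 ≤ 16 * C1 * 2 ^ J := by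
      have h3 : m < 8 * C1 * (q + 1) := by
        rw [hq]
        have := Nat.lt_mul_div_succ m (show 0 < 8 * C1 by omega)
        linarith
      have h5 : 8 * C1 * (q + 1) ≤ 8 * C1 * 2 ^ (J + 1) := Nat.mul_le_mul_left _ hJ2
      have h6 : 8 * C1 * 2 ^ (J + 1) = 16 * C1 * 2 ^ J := by rw [pow_succ]; ring
      omega
    calc Real.log n ≤ m + 1 := h1
      _ = ((m + 1 : ℕ) : ℝ) := by push_cast; rfl
      _ ≤ ((16 * C1 * 2 ^ J : ℕ) : ℝ) := by exact_mod_cast h2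
      _ = _ := by push_cast; rfl
  have hV : VV (fun _ => {0}) z R ≤ V0 / Real.log n := by
    rw [hz, hR]
    refine (Pool.Agent.X35.RP.VV_le hCM J0 J (by omega) hJlow).trans ?_
    rw [hV0, div_le_div_iff₀ (by positivity) hlog0]
    have : 0 < Real.exp (2 * CM) * 2 ^ J0 := by positivity
    calc Real.exp (2 * CM) * 2 ^ J0 * Real.log n ≤ Real.exp (2 * CM) * 2 ^ J0 * (16 * C1 * 2 ^ J) :=
          mul_le_mul_of_nonneg_left hlogJ this.le
      _ = _ := by ring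
  have hVnn : 0 ≤ VV (fun _ => {0}) z R := by
    unfold VV
    apply Finset.prod_nonneg
    intro p hp
    unfold Pr at hp
    rw [mem_filter] at hp
    rw [card_singleton, Nat.cast_one, sub_nonneg, div_le_one (by exact_mod_cast hp.2.pos)]
    exact_mod_cast hp.2.one_lt.le
  obtain ⟨G, hG⟩ : ∃ G : ℤ → ℝ, G = fun h => Gd 26 (fun _ => {0}) z R h := ⟨_, rfl⟩
  have hG1 : ∀ h, 1 ≤ G h := fun h => by rw [hG]; exact one_le_Gd 26 z R h
  refine ⟨fun a d => K * (n / Real.log n ^ 4) * (AA a * (G d * G (a - d) * G (a - 2 * d))), ?_, ?_⟩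
  · -- the count
    intro a d ha B hB hBp
    have hprod : 1 ≤ AA a * (G d * G (a - d) * G (a - 2 * d)) := by
      have h1 := one_le_AA a
      have h2 := hG1 d
      have h3 := hG1 (a - d)
      have h4 := hG1 (a - 2 * d)
      have h5 : 1 ≤ G d * G (a - d) := by nlinarith
      have h6 : 1 ≤ G d * G (a - d) * G (a - 2 * d) := by nlinarith
      nlinarith
    obtain ⟨P, hP⟩ : ∃ P : ℝ, P = AA a * (G d * G (a - d) * G (a - 2 * d)) := ⟨_, rfl⟩
    obtain ⟨B1, hB1⟩ : ∃ B1, B1 = B.filter (fun t : ℕ => ∀ s ∈ S4 a d, R < ((t : ℤ) - s).natAbs) := ⟨_, rfl⟩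
    obtain ⟨B2, hB2⟩ : ∃ B2, B2 = (S4 a d).biUnion
      (fun s => (Ioc 0 (2 * n)).filter (fun t : ℕ => ((t : ℤ) - s).natAbs ≤ R)) := ⟨_, rfl⟩
    have hsub : B ⊆ B1 ∪ B2 := by
      intro t ht
      rw [mem_union]
      by_cases h : ∀ s ∈ S4 a d, R < ((t : ℤ) - s).natAbs
      · left
        rw [hB1, mem_filter]
        exact ⟨ht, h⟩
      · right
        push Not at h
        obtain ⟨s, hs, h1⟩ := h
        rw [hB2, mem_biUnion]
        exact ⟨s, hs, mem_filter.2 ⟨hB ht, h1⟩⟩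
    have hS4c : (S4 a d).card ≤ 4 := by
      unfold S4
      refine (card_insert_le _ _).trans ?_
      refine Nat.succ_le_succ ((card_insert_le _ _).trans ?_)
      refine Nat.succ_le_succ ((card_insert_le _ _).trans ?_)
      simp
    have hB2c : B2.card ≤ 4 * (2 * R + 1) := by
      rw [hB2]
      refine card_biUnion_le.trans ?_
      refine (Finset.sum_le_card_nsmul _ _ (2 * R + 1) (fun s _ => near_card s R (2 * n))).trans ?_
      rw [smul_eq_mul]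
      exact Nat.mul_le_mul_right _ hS4c
    have hSv : Sv 4 z R (Cl (S4 a d)) := by
      intro p hp
      have hpp : p.Prime := by
        unfold Pr at hp
        exact (mem_filter.1 hp).2
      exact ⟨(Cl_card (S4 a d) p).trans hS4c, Cl_lt (S4 a d) hpp.pos⟩
    obtain ⟨θ, hθ⟩ := hTH J0 J (by omega) hJlow (Cl (S4 a d)) (by rw [← hz, ← hR]; exact hSv)
    rw [← hz, ← hR] at hθ
    have hB1c := sieve_count hθ hSv hz4 (2 * n) B1 (by
        rw [hB1]
        exact (filter_subset _ _).trans hB) (by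
        intro t ht p hp hmem
        rw [hB1, mem_filter] at ht
        unfold Pr at hp
        rw [mem_filter, mem_Ioc] at hp
        obtain ⟨s, hs, hd⟩ := (mem_Cl (S4 a d) hp.2.pos t).1 hmem
        have h1 := ht.2 s hs
        have h2 := hBp t ht.1 s hs
        have h3 : p ∣ ((t : ℤ) - s).natAbs := Int.natCast_dvd.1 hd
        have h4 := (Nat.prime_dvd_prime_iff_eq hp.2 h2).1 h3
        omega)
    have hVV := VV4 a d ha z R hz4
    have e1 : Gd 26 (fun _ => {0}) z R d = G d := by rw [hG]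
    have e2 : Gd 26 (fun _ => {0}) z R (a - d) = G (a - d) := by rw [hG]
    have e3 : Gd 26 (fun _ => {0}) z R (a - 2 * d) = G (a - 2 * d) := by rw [hG]
    rw [e1, e2, e3, ← hP] at hVV
    rw [← hP] at hprod
    have hP0 : 0 ≤ P := by linarith
    have hV4 : VV (fun _ => {0}) z R ^ 4 ≤ (V0 / Real.log n) ^ 4 := pow_le_pow_left₀ hVnn hV 4
    have h5 : (B1.card : ℝ) ≤ 2 * n * (C1 * ((V0 / Real.log n) ^ 4 * P)) + √(n : ℝ) := by
      refine hB1c.trans ?_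
      push_cast
      have h6 : VV (Cl (S4 a d)) z R ≤ (V0 / Real.log n) ^ 4 * P :=
        hVV.trans (mul_le_mul_of_nonneg_right hV4 hP0)
      have h7 : 2 * (n : ℝ) * (C1 * VV (Cl (S4 a d)) z R) ≤ 2 * n * (C1 * ((V0 / Real.log n) ^ 4 * P)) := by
        gcongr
      linarith
    have h6 : (B2.card : ℝ) ≤ 12 * √(n : ℝ) := by
      have h7 : (B2.card : ℝ) ≤ 4 * (2 * R + 1) := by exact_mod_cast hB2c
      have h8 : (R : ℝ) ≤ √(n : ℝ) := hRle.trans hRsq
      linarith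
    have h7 : (B.card : ℝ) ≤ B1.card + B2.card := by
      have := (card_le_card hsub).trans (card_union_le _ _)
      exact_mod_cast this
    have h8 : 13 * √(n : ℝ) ≤ n / Real.log n ^ 4 := by
      rw [le_div_iff₀ (by positivity)]
      have hs : √(n : ℝ) * √(n : ℝ) = n := Real.mul_self_sqrt hn0.le
      have hs0 : 0 ≤ √(n : ℝ) := Real.sqrt_nonneg _
      calc 13 * √(n : ℝ) * Real.log n ^ 4 ≤ Real.log n * √(n : ℝ) * Real.log n ^ 4 := by gcongr
        _ = √(n : ℝ) * Real.log n ^ 5 := by ring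
        _ ≤ √(n : ℝ) * √(n : ℝ) := mul_le_mul_of_nonneg_left hl2 hs0
        _ = n := hs
    have h9 : n / Real.log n ^ 4 ≤ n / Real.log n ^ 4 * P := le_mul_of_one_le_right (by positivity) hprod
    have h10 : 2 * n * (C1 * ((V0 / Real.log n) ^ 4 * P)) = 2 * C1 * V0 ^ 4 * (n / Real.log n ^ 4 * P) := by
      rw [div_pow]; ring
    rw [h10] at h5
    simp only
    rw [← hP, hK]
    have h11 : (2 * C1 * V0 ^ 4 + 1) * (n / Real.log n ^ 4) * P =
        2 * C1 * V0 ^ 4 * (n / Real.log n ^ 4 * P) + n / Real.log n ^ 4 * P := by ring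
    rw [h11]
    linarith
  · -- the second moment
    intro a ha han
    obtain ⟨N, hN⟩ : ∃ N : ℕ, N = 8 * n + 1 := ⟨_, rfl⟩
    obtain ⟨G2, hG2⟩ : ∃ G2 : ℤ → ℝ, G2 = fun h => Gd ((1 + 26) ^ 6) (fun _ => {0}) z R h := ⟨_, rfl⟩
    have hG21 : ∀ h, 1 ≤ G2 h := fun h => by rw [hG2]; exact one_le_Gd _ z R h
    have hg := hgav z R n N (by omega) (by omega) hRn' (by
      refine hl1.trans ?_
      have h1 : √(n : ℝ) ≤ n := by
        rw [Real.sqrt_le_left hn0.le]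
        have : (1 : ℝ) ≤ n := by exact_mod_cast (by omega : 1 ≤ n)
        nlinarith
      have h2 : (n : ℝ) ≤ N := by exact_mod_cast (by omega : n ≤ N)
      linarith) (fun _ => {0}) (by
      intro p hp
      refine ⟨by rw [card_singleton], fun c hc => ?_⟩
      rw [mem_singleton] at hc
      unfold Pr at hp
      rw [hc]
      exact (mem_filter.1 hp).2.pos)
    have hNr : (0 : ℝ) < N := by exact_mod_cast (by omega : 0 < N)
    rw [div_le_one hNr] at hg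
    have hsum : ∑ h ∈ Ioo (-(N : ℤ)) N, G2 h ≤ 3 * N := by
      have h1 : ∑ h ∈ Ioo (-(N : ℤ)) N, G2 h = ∑ h ∈ Ioo (-(N : ℤ)) N, (G2 h - 1) + ((Ioo (-(N : ℤ)) N).card : ℝ) := by
        rw [Finset.sum_sub_distrib]
        simp
      rw [h1]
      have h2 : ((Ioo (-(N : ℤ)) N).card : ℝ) ≤ 2 * N := by
        rw [Int.card_Ioo]
        have : ((N : ℤ) - -(N : ℤ) - 1).toNat ≤ 2 * N := by omega
        exact_mod_cast this
      have h3 : ∑ h ∈ Ioo (-(N : ℤ)) N, (G2 h - 1) ≤ N := by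
        rw [hG2]
        exact hg
      linarith
    have hinj : ∀ φ : ℤ → ℤ, Set.InjOn φ (Icc (-(2 * n : ℤ)) (2 * n) : Finset ℤ) →
        (∀ d ∈ Icc (-(2 * n : ℤ)) (2 * n), φ d ∈ Ioo (-(N : ℤ)) N) →
        ∑ d ∈ Icc (-(2 * n : ℤ)) (2 * n), G2 (φ d) ≤ 3 * N := by
      intro φ hφ hφ2
      rw [← Finset.sum_image (f := G2) (fun x hx y hy h => hφ hx hy h)]
      refine le_trans (Finset.sum_le_sum_of_subset_of_nonneg ?_ ?_) hsum
      · intro h hh
        rw [mem_image] at hh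
        obtain ⟨d, hd, rfl⟩ := hh
        exact hφ2 d hd
      · intro h _ _
        linarith [hG21 h]
    have han' := abs_le.1 han
    have i1 := hinj (fun d => d) (fun x _ y _ h => h) (by
      intro d hd
      rw [mem_Icc] at hd
      rw [mem_Ioo]
      omega)
    have i2 := hinj (fun d => a - d) (fun x _ y _ h => by simp only at h; omega) (by
      intro d hd
      rw [mem_Icc] at hd
      rw [mem_Ioo]
      omega)
    have i3 := hinj (fun d => a - 2 * d) (fun x _ y _ h => by simp only at h; omega) (by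
      intro d hd
      rw [mem_Icc] at hd
      rw [mem_Ioo]
      omega)
    have hterm : ∀ d : ℤ, (K * (n / Real.log n ^ 4) * (AA a * (G d * G (a - d) * G (a - 2 * d)))) ^ 2 ≤
        (K * (n / Real.log n ^ 4)) ^ 2 * AA a ^ 2 * (1 / 3 * (G2 d + G2 (a - d) + G2 (a - 2 * d))) := by
      intro d
      have h1 : (K * (n / Real.log n ^ 4) * (AA a * (G d * G (a - d) * G (a - 2 * d)))) ^ 2 =
          (K * (n / Real.log n ^ 4)) ^ 2 * AA a ^ 2 * ((G d ^ 2) * (G (a - d) ^ 2) * (G (a - 2 * d) ^ 2)) := by ring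
      rw [h1]
      apply mul_le_mul_of_nonneg_left _ (by positivity)
      have h2 : ∀ h, G h ^ 6 ≤ G2 h := fun h => by
        rw [hG, hG2]
        exact Gd_six 26 z R h
      have h3 : ∀ x y w : ℝ, 0 ≤ x → 0 ≤ y → 0 ≤ w → x * y * w ≤ 1 / 3 * (x ^ 3 + y ^ 3 + w ^ 3) := by
        intro x y w hx hy hw
        nlinarith [mul_nonneg (add_nonneg (add_nonneg hx hy) hw) (sq_nonneg (x - y)),
          mul_nonneg (add_nonneg (add_nonneg hx hy) hw) (sq_nonneg (y - w)),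
          mul_nonneg (add_nonneg (add_nonneg hx hy) hw) (sq_nonneg (x - w))]
      refine (h3 _ _ _ (by positivity) (by positivity) (by positivity)).trans ?_
      have e1 : (G d ^ 2) ^ 3 = G d ^ 6 := by ring
      have e2 : (G (a - d) ^ 2) ^ 3 = G (a - d) ^ 6 := by ring
      have e3 : (G (a - 2 * d) ^ 2) ^ 3 = G (a - 2 * d) ^ 6 := by ring
      rw [e1, e2, e3]
      have := h2 d
      have := h2 (a - d)
      have := h2 (a - 2 * d)
      linarith
    refine (Finset.sum_le_sum fun d _ => hterm d).trans ?_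
    rw [← Finset.mul_sum, ← Finset.mul_sum, Finset.sum_add_distrib, Finset.sum_add_distrib]
    have h4 : (N : ℝ) ≤ 9 * n := by exact_mod_cast (by omega : N ≤ 9 * n)
    have h5 : 1 / 3 * (∑ d ∈ Icc (-(2 * n : ℤ)) (2 * n), G2 d + ∑ d ∈ Icc (-(2 * n : ℤ)) (2 * n), G2 (a - d) +
        ∑ d ∈ Icc (-(2 * n : ℤ)) (2 * n), G2 (a - 2 * d)) ≤ 27 * n := by
      linarith
    calc (K * (n / Real.log n ^ 4)) ^ 2 * AA a ^ 2 * (1 / 3 * (∑ d ∈ Icc (-(2 * n : ℤ)) (2 * n), G2 d +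
          ∑ d ∈ Icc (-(2 * n : ℤ)) (2 * n), G2 (a - d) + ∑ d ∈ Icc (-(2 * n : ℤ)) (2 * n), G2 (a - 2 * d)))
        ≤ (K * (n / Real.log n ^ 4)) ^ 2 * AA a ^ 2 * (27 * n) := mul_le_mul_of_nonneg_left h5 (by positivity)
      _ = 27 * K ^ 2 * (n ^ 3 / Real.log n ^ 8) * AA a ^ 2 := by
        field_simp

end Pool.Agent.X35.GG
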