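import Pool.Agent.X35.GG.Sv

/-!
# Paths in the intersections of the graphs `G(p, n)`
-/

set_option autoImplicit false

open Finset

namespace Pool.Agent.X35.GG

/-- the vertices `2, 4, …, 2 n` -/
def Vtx (n : ℕ) : Type := {a : ℕ // 2 ∣ a ∧ 2 ≤ a ∧ a ≤ 2 * n}

/-- `u` is odd, at most `2 n - 1`, and not of the form `p k` with `k > 1` -/
def Allowed (p n u : ℕ) : Prop := Odd u ∧ u ≤ 2 * n - 1 ∧ ¬ ∃ k : ℕ, 1 < k ∧ u = p * k

/-- the graph `G(p, n)`: different vertices `a`, `b` are adjacent if `(a + b) / 2` and `|a - b| / 2` are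
odd, at most `2 n - 1`, and not of the form `p k` with `k > 1` -/
def GP (p n : ℕ) : SimpleGraph (Vtx n) where
  Adj a b := a ≠ b ∧ Allowed p n ((a.1 + b.1) / 2) ∧ Allowed p n (((a.1 : ℤ) - b.1).natAbs / 2)
  symm := ⟨by
    rintro a b ⟨h1, h2, h3⟩
    refine ⟨h1.symm, by rwa [Nat.add_comm], ?_⟩
    have : ((b.1 : ℤ) - a.1).natAbs = ((a.1 : ℤ) - b.1).natAbs := by
      rw [← Int.natAbs_neg, neg_sub]
    rwa [this]⟩
  loopless := ⟨fun a h => h.1 rfl⟩

/-- the intersection of the graphs `G(p, n)` over the odd primes `p ≤ z` -/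
def Sieved (z n : ℕ) : SimpleGraph (Vtx n) where
  Adj a b := a ≠ b ∧ ∀ p : ℕ, p.Prime → 3 ≤ p → p ≤ z → (GP p n).Adj a b
  symm := ⟨fun _ _ h => ⟨h.1.symm, fun p h1 h2 h3 => (h.2 p h1 h2 h3).symm⟩⟩
  loopless := ⟨fun _ h => h.1 rfl⟩

lemma adj_of {z n : ℕ} (a b : Vtx n) (h4 : (a.1 + b.1) % 4 = 2)
    (hr : ∀ p : ℕ, p.Prime → 3 ≤ p → p ≤ z → ¬ (p : ℤ) ∣ (b.1 : ℤ) - a.1 ∧ ¬ (p : ℤ) ∣ (b.1 : ℤ) - (-(a.1 : ℤ))) :
    (Sieved z n).Adj a b := by
  obtain ⟨a, ha2, ha1, han⟩ := a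
  obtain ⟨b, hb2, hb1, hbn⟩ := b
  simp only at h4 hr
  have hne : a ≠ b := by
    rintro rfl
    omega
  have hne' : (⟨a, ha2, ha1, han⟩ : Vtx n) ≠ ⟨b, hb2, hb1, hbn⟩ := fun h => hne (congrArg Subtype.val h)
  refine ⟨hne', fun p hp hp3 hpz => ⟨hne', ?_, ?_⟩⟩
  · obtain ⟨h1, h2⟩ := hr p hp hp3 hpz
    refine ⟨?_, ?_, ?_⟩
    · rw [Nat.odd_iff]; simp only; omega
    · simp only; omega
    · rintro ⟨k, _, hk⟩
      simp only at hk
      apply h2
      refine ⟨2 * k, ?_⟩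
      have : a + b = 2 * (p * k) := by omega
      have h5 : ((a + b : ℕ) : ℤ) = ((2 * (p * k) : ℕ) : ℤ) := by rw [this]
      push_cast at h5
      linarith
  · obtain ⟨h1, h2⟩ := hr p hp hp3 hpz
    refine ⟨?_, ?_, ?_⟩
    · rw [Nat.odd_iff]; simp only; omega
    · simp only; omega
    · rintro ⟨k, _, hk⟩
      simp only at hk
      apply h1
      have h3 : ((a : ℤ) - b).natAbs = p * (2 * k) := by
        have h6 : ((a : ℤ) - b).natAbs = 2 * (p * k) := by omega
        rw [h6]; ring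
      have h4 : p ∣ ((a : ℤ) - b).natAbs := ⟨_, h3⟩
      have h5 : (p : ℤ) ∣ (a : ℤ) - b := Int.natCast_dvd.2 h4
      have h6 := (dvd_neg).2 h5
      rwa [neg_sub] at h6

lemma adj_six {z n : ℕ} (a b : Vtx n) (hab : a.1 = b.1 + 6)
    (hr : ∀ p : ℕ, p.Prime → 3 ≤ p → p ≤ z → ¬ (p : ℤ) ∣ (a.1 : ℤ) - 3) : (Sieved z n).Adj a b := by
  obtain ⟨a, ha2, ha1, han⟩ := a
  obtain ⟨b, hb2, hb1, hbn⟩ := b
  simp only at hab hr
  have hne : a ≠ b := by omega
  have hne' : (⟨a, ha2, ha1, han⟩ : Vtx n) ≠ ⟨b, hb2, hb1, hbn⟩ := fun h => hne (congrArg Subtype.val h)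
  refine ⟨hne', fun p hp hp3 hpz => ⟨hne', ?_, ?_⟩⟩
  · have h1 := hr p hp hp3 hpz
    refine ⟨?_, ?_, ?_⟩
    · rw [Nat.odd_iff]; simp only; omega
    · simp only; omega
    · rintro ⟨k, _, hk⟩
      simp only at hk
      apply h1
      refine ⟨k, ?_⟩
      have : a - 3 = p * k := by omega
      have h5 : ((a - 3 : ℕ) : ℤ) = ((p * k : ℕ) : ℤ) := by rw [this]
      rw [Nat.cast_sub (by omega)] at h5
      push_cast at h5
      linarith
  · have e : ((a : ℤ) - b).natAbs / 2 = 3 := by omega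
    simp only [e]
    refine ⟨by decide, by omega, ?_⟩
    rintro ⟨k, hk, hk2⟩
    nlinarith

/-- pigeonhole -/
lemma pig (S : Finset ℤ) (p : ℕ) (hp : 0 < p) (h : S.card < p) : ∃ c : ℤ, ∀ s ∈ S, ¬ (p : ℤ) ∣ c - s := by
  have h1 : (Cl S p).card < (range p).card := by
    rw [card_range]
    exact lt_of_le_of_lt (Cl_card S p) h
  obtain ⟨c, hc, hcS⟩ := exists_mem_notMem_of_card_lt_card h1
  rw [mem_range] at hc
  refine ⟨c, fun s hs hd => hcS ?_⟩
  have := (mem_Cl S hp c).2 ⟨s, hs, hd⟩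
  rwa [Nat.mod_eq_of_lt hc] at this

/-- a vertex in prescribed classes -/
def Ext (z n : ℕ) : Prop := ∀ S : Finset ℤ, S.card ≤ 4 → (∃ c : ℤ, ∀ s ∈ S, ¬ (3 : ℤ) ∣ c - s) →
  ∀ r : ℕ, 2 ∣ r → ∃ w : Vtx n, w.1 % 4 = r % 4 ∧ 8 ≤ w.1 ∧
    ∀ p : ℕ, p.Prime → 3 ≤ p → p ≤ z → ∀ s ∈ S, ¬ (p : ℤ) ∣ (w.1 : ℤ) - s

theorem ext_ex : ∃ κ : ℝ, 0 < κ ∧ ∃ n₀ : ℕ, ∀ n : ℕ, n₀ ≤ n → ∀ z : ℕ, (z : ℝ) ≤ (n : ℝ) ^ κ → Ext z n := by
  obtain ⟨κ, hκ, X₀, h⟩ := exists_rough 4
  refine ⟨κ, hκ, X₀ + 7, fun n hn z hz S hS h3 r hr => ?_⟩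
  obtain ⟨x, hx1, hx2, hx3, hx4⟩ := h (2 * n - 7) 7 (by omega) S hS (fun p hp hp3 => by
    rcases Nat.lt_or_ge 4 p with h5 | h5
    · exact pig S p hp.pos (by omega)
    · have : p = 3 := by
        have h4 : p ≠ 4 := by rintro rfl; exact absurd hp (by norm_num)
        omega
      subst this
      exact_mod_cast h3) r
  refine ⟨⟨x, by omega, by omega, by omega⟩, hx3, by show 8 ≤ x; omega, fun p hp hp3 hpz s hs => ?_⟩
  apply hx4 p hp hp3 _ s hs
  calc (p : ℝ) ≤ z := by exact_mod_cast hpz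
    _ ≤ (n : ℝ) ^ κ := hz
    _ ≤ ((2 * n - 7 : ℕ) : ℝ) ^ κ := by
        apply Real.rpow_le_rpow (Nat.cast_nonneg _) _ hκ.le
        exact_mod_cast (by omega : n ≤ 2 * n - 7)

section
variable {z n : ℕ} (hE : Ext z n)
include hE

/-- vertices of the same type have a common neighbour -/
lemma same (a b : Vtx n) (h4 : a.1 % 4 = b.1 % 4) (h3 : 3 ∣ a.1 ↔ 3 ∣ b.1) :
    (Sieved z n).edist a b ≤ 2 := by
  classical
  obtain ⟨w, hw4, _, hw⟩ := hE {(a.1 : ℤ), -(a.1 : ℤ), (b.1 : ℤ), -(b.1 : ℤ)} (by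
      refine (card_insert_le _ _).trans ?_
      refine Nat.succ_le_succ ((card_insert_le _ _).trans ?_)
      refine Nat.succ_le_succ ((card_insert_le _ _).trans ?_)
      simp) (by
      by_cases h : 3 ∣ a.1
      · have h' := h3.1 h
        refine ⟨1, fun s hs => ?_⟩
        simp only [mem_insert, mem_singleton] at hs
        rcases hs with rfl | rfl | rfl | rfl <;> omega
      · have h' : ¬ 3 ∣ b.1 := fun h' => h (h3.2 h')
        refine ⟨0, fun s hs => ?_⟩
        simp only [mem_insert, mem_singleton] at hs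
        rcases hs with rfl | rfl | rfl | rfl <;> omega) (a.1 + 2) (by
      have := a.2.1; omega)
  have ha := a.2.1
  have hb := b.2.1
  have h1 : (Sieved z n).Adj a w := adj_of a w (by omega) fun p hp hp3 hpz =>
    ⟨hw p hp hp3 hpz _ (by simp), hw p hp hp3 hpz _ (by simp)⟩
  have h2 : (Sieved z n).Adj b w := adj_of b w (by omega) fun p hp hp3 hpz =>
    ⟨hw p hp hp3 hpz _ (by simp), hw p hp hp3 hpz _ (by simp)⟩
  calc (Sieved z n).edist a b ≤ (Sieved z n).edist a w + (Sieved z n).edist w b :=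
        SimpleGraph.edist_triangle
    _ = 1 + 1 := by
        rw [SimpleGraph.edist_eq_one_iff_adj.2 h1, SimpleGraph.edist_eq_one_iff_adj.2 h2.symm]
    _ = 2 := by norm_num

/-- vertices whose types differ in both respects -/
lemma both (a b : Vtx n) (h4 : a.1 % 4 ≠ b.1 % 4) (h3 : 3 ∣ a.1 ↔ ¬ 3 ∣ b.1) :
    (Sieved z n).edist a b ≤ 3 := by
  classical
  obtain ⟨w, hw4, _, hw⟩ := hE {(a.1 : ℤ), -(a.1 : ℤ)} (by
      refine (card_insert_le _ _).trans ?_
      simp) (by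
      by_cases h : 3 ∣ a.1
      · refine ⟨1, fun s hs => ?_⟩
        simp only [mem_insert, mem_singleton] at hs
        rcases hs with rfl | rfl <;> omega
      · refine ⟨0, fun s hs => ?_⟩
        simp only [mem_insert, mem_singleton] at hs
        rcases hs with rfl | rfl <;> omega) b.1 b.2.1
  have ha := a.2.1
  have hb := b.2.1
  by_cases hw3 : 3 ≤ z
  · have h1 : (Sieved z n).Adj a w := adj_of a w (by omega) fun p hp hp3 hpz =>
      ⟨hw p hp hp3 hpz _ (by simp), hw p hp hp3 hpz _ (by simp)⟩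
    have h5 := hw 3 Nat.prime_three le_rfl hw3
    have h6 := h5 (a.1 : ℤ) (by simp)
    have h7 := h5 (-(a.1 : ℤ)) (by simp)
    have h8 : 3 ∣ w.1 ↔ 3 ∣ b.1 := by
      by_cases h : 3 ∣ a.1
      · have h9 := h3.1 h
        constructor
        · intro h10
          exfalso
          omega
        · intro h10
          exact absurd h10 h9
      · have h9 : 3 ∣ b.1 := by
          by_contra h10
          exact h (h3.2 h10)
        constructor
        · intro _
          exact h9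
        · intro _
          clear h4 hw4 h1 hw
          have e1 : a.1 % 3 = 1 ∨ a.1 % 3 = 2 := by omega
          have e2 : w.1 % 3 = 0 ∨ w.1 % 3 = 1 ∨ w.1 % 3 = 2 := by omega
          rcases e1 with e1 | e1 <;> rcases e2 with e2 | e2 | e2 <;> omega
    have h2 : (Sieved z n).edist w b ≤ 2 := same hE w b hw4 h8
    calc (Sieved z n).edist a b ≤ (Sieved z n).edist a w + (Sieved z n).edist w b :=
          SimpleGraph.edist_triangle
      _ ≤ 1 + 2 := by
          rw [SimpleGraph.edist_eq_one_iff_adj.2 h1]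
          exact add_le_add le_rfl h2
      _ = 3 := by norm_num
  · -- no primes to avoid
    have h1 : (Sieved z n).Adj a b := adj_of a b (by omega) fun p hp hp3 hpz => by omega
    rw [SimpleGraph.edist_eq_one_iff_adj.2 h1]
    norm_num

/-- vertices which differ only modulo 4, multiples of 3 -/
lemma four_mul (hz : 3 ≤ z) (a b : Vtx n) (h4 : a.1 % 4 ≠ b.1 % 4) (ha3 : 3 ∣ a.1) (hb3 : 3 ∣ b.1) :
    (Sieved z n).edist a b ≤ 5 := by
  classical
  have ha := a.2.1
  have hb := b.2.1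
  obtain ⟨w, hw4, hw8, hw⟩ := hE {(a.1 : ℤ), -(a.1 : ℤ), 3} (by
      refine (card_insert_le _ _).trans ?_
      refine Nat.succ_le_succ ((card_insert_le _ _).trans ?_)
      simp) (by
      refine ⟨1, fun s hs => ?_⟩
      simp only [mem_insert, mem_singleton] at hs
      rcases hs with rfl | rfl | rfl <;> omega) (a.1 + 2) (by omega)
  obtain ⟨v, hv⟩ : ∃ v : Vtx n, w.1 = v.1 + 6 :=
    ⟨⟨w.1 - 6, by have := w.2.1; omega, by omega, by have := w.2.2.2; omega⟩, by
      show w.1 = w.1 - 6 + 6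
      omega⟩
  have h1 : (Sieved z n).Adj a w := adj_of a w (by omega) fun p hp hp3 hpz =>
    ⟨hw p hp hp3 hpz _ (by simp), hw p hp hp3 hpz _ (by simp)⟩
  have h2 : (Sieved z n).Adj w v := adj_six w v hv fun p hp hp3 hpz => hw p hp hp3 hpz _ (by simp)
  have h5 := hw 3 Nat.prime_three le_rfl hz 3 (by simp)
  have h6 : (Sieved z n).edist v b ≤ 3 := both hE v b (by omega) (by omega)
  calc (Sieved z n).edist a b ≤ (Sieved z n).edist a w + (Sieved z n).edist w b :=
        SimpleGraph.edist_triangle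
    _ ≤ (Sieved z n).edist a w + ((Sieved z n).edist w v + (Sieved z n).edist v b) :=
        add_le_add le_rfl SimpleGraph.edist_triangle
    _ ≤ 1 + (1 + 3) := by
        rw [SimpleGraph.edist_eq_one_iff_adj.2 h1, SimpleGraph.edist_eq_one_iff_adj.2 h2]
        exact add_le_add le_rfl (add_le_add le_rfl h6)
    _ = 5 := by norm_num

/-- vertices which differ only modulo 4, not multiples of 3 -/
lemma four_not (hz : 3 ≤ z) (a b : Vtx n) (h4 : a.1 % 4 ≠ b.1 % 4) (ha3 : ¬ 3 ∣ a.1) (hb3 : ¬ 3 ∣ b.1) :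
    (Sieved z n).edist a b ≤ 5 := by
  classical
  have ha := a.2.1
  have hb := b.2.1
  obtain ⟨w, hw4, hw8, hw⟩ := hE {3} (by simp) (by
      refine ⟨1, fun s hs => ?_⟩
      simp only [mem_singleton] at hs
      rcases hs with rfl
      omega) a.1 ha
  obtain ⟨v, hv⟩ : ∃ v : Vtx n, w.1 = v.1 + 6 :=
    ⟨⟨w.1 - 6, by have := w.2.1; omega, by omega, by have := w.2.2.2; omega⟩, by
      show w.1 = w.1 - 6 + 6
      omega⟩
  have h2 : (Sieved z n).Adj w v := adj_six w v hv fun p hp hp3 hpz => hw p hp hp3 hpz _ (by simp)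
  have h5 := hw 3 Nat.prime_three le_rfl hz 3 (by simp)
  have h6 : (Sieved z n).edist a w ≤ 2 := same hE a w (by omega) (by omega)
  have h7 : (Sieved z n).edist v b ≤ 2 := same hE v b (by omega) (by omega)
  calc (Sieved z n).edist a b ≤ (Sieved z n).edist a w + (Sieved z n).edist w b :=
        SimpleGraph.edist_triangle
    _ ≤ (Sieved z n).edist a w + ((Sieved z n).edist w v + (Sieved z n).edist v b) :=
        add_le_add le_rfl SimpleGraph.edist_triangle
    _ ≤ 2 + (1 + 2) := by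
        rw [SimpleGraph.edist_eq_one_iff_adj.2 h2]
        exact add_le_add h6 (add_le_add le_rfl h7)
    _ = 5 := by norm_num

/-- vertices which differ only modulo 3 -/
lemma three (hz : 3 ≤ z) (a b : Vtx n) (h4 : a.1 % 4 = b.1 % 4) (ha3 : ¬ 3 ∣ a.1) (hb3 : 3 ∣ b.1) :
    (Sieved z n).edist a b ≤ 4 := by
  classical
  have ha := a.2.1
  have hb := b.2.1
  obtain ⟨w, hw4, hw8, hw⟩ := hE {3, 6 + (b.1 : ℤ), 6 - (b.1 : ℤ)} (by
      refine (card_insert_le _ _).trans ?_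
      refine Nat.succ_le_succ ((card_insert_le _ _).trans ?_)
      simp) (by
      refine ⟨1, fun s hs => ?_⟩
      simp only [mem_insert, mem_singleton] at hs
      rcases hs with rfl | rfl | rfl <;> omega) a.1 ha
  obtain ⟨v, hv⟩ : ∃ v : Vtx n, w.1 = v.1 + 6 :=
    ⟨⟨w.1 - 6, by have := w.2.1; omega, by omega, by have := w.2.2.2; omega⟩, by
      show w.1 = w.1 - 6 + 6
      omega⟩
  have h2 : (Sieved z n).Adj w v := adj_six w v hv fun p hp hp3 hpz => hw p hp hp3 hpz _ (by simp)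
  have h5 := hw 3 Nat.prime_three le_rfl hz 3 (by simp)
  have h6 : (Sieved z n).edist a w ≤ 2 := same hE a w (by omega) (by omega)
  have h7 : (Sieved z n).Adj b v := adj_of b v (by omega) fun p hp hp3 hpz => by
    have e : (w.1 : ℤ) = v.1 + 6 := by exact_mod_cast hv
    have h8 := hw p hp hp3 hpz (6 + (b.1 : ℤ)) (by simp)
    have h9 := hw p hp hp3 hpz (6 - (b.1 : ℤ)) (by simp)
    rw [e] at h8 h9
    have e1 : (v.1 : ℤ) + 6 - (6 + b.1) = v.1 - b.1 := by ring
    have e2 : (v.1 : ℤ) + 6 - (6 - b.1) = v.1 - (-(b.1 : ℤ)) := by ring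
    rw [e1] at h8
    rw [e2] at h9
    exact ⟨h8, h9⟩
  calc (Sieved z n).edist a b ≤ (Sieved z n).edist a w + (Sieved z n).edist w b :=
        SimpleGraph.edist_triangle
    _ ≤ (Sieved z n).edist a w + ((Sieved z n).edist w v + (Sieved z n).edist v b) :=
        add_le_add le_rfl SimpleGraph.edist_triangle
    _ ≤ 2 + (1 + 1) := by
        rw [SimpleGraph.edist_eq_one_iff_adj.2 h2, SimpleGraph.edist_eq_one_iff_adj.2 h7.symm]
        exact add_le_add h6 le_rfl
    _ = 4 := by norm_num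

/-- **The upper bound.** -/
theorem upper (hz : 3 ≤ z) : (Sieved z n).ediam ≤ 5 := by
  apply SimpleGraph.ediam_le_of_edist_le
  intro a b
  have l2 : (2 : ℕ∞) ≤ 5 := by norm_num
  have l3 : (3 : ℕ∞) ≤ 5 := by norm_num
  have l4 : (4 : ℕ∞) ≤ 5 := by norm_num
  by_cases h4 : a.1 % 4 = b.1 % 4
  · by_cases ha : 3 ∣ a.1
    · by_cases hb : 3 ∣ b.1
      · exact (same hE a b h4 (by tauto)).trans l2
      · rw [SimpleGraph.edist_comm]
        exact (three hE hz b a h4.symm hb ha).trans l4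
    · by_cases hb : 3 ∣ b.1
      · exact (three hE hz a b h4 ha hb).trans l4
      · exact (same hE a b h4 (by tauto)).trans l2
  · by_cases ha : 3 ∣ a.1
    · by_cases hb : 3 ∣ b.1
      · exact four_mul hE hz a b h4 ha hb
      · exact (both hE a b h4 (by tauto)).trans l3
    · by_cases hb : 3 ∣ b.1
      · exact (both hE a b h4 (by tauto)).trans l3
      · exact four_not hE hz a b h4 ha hb

end

end Pool.Agent.X35.GG
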