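import Pool.Agent.X35.GG.Graph

/-!
# Lower bounds for distances
-/

set_option autoImplicit false

namespace Pool.Agent.X35.GG

/-- no walks of length at most four -/
theorem five_le {V : Type*} (G : SimpleGraph V) (f : V → ℕ)
    (hpar : ∀ a b : V, G.Adj a b → (f a + f b) % 2 = 1) (a b : V) (hab : (f a + f b) % 2 = 1)
    (h1 : ¬ G.Adj a b) (h3 : ∀ x y : V, G.Adj a x → G.Adj x y → G.Adj y b → False) : 5 ≤ G.edist a b := by
  have hw : ∀ (c d : V) (p : G.Walk c d), (p.length + f c + f d) % 2 = 0 := by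
    intro c d p
    induction p with
    | nil =>
      rw [SimpleGraph.Walk.length_nil]
      omega
    | cons h q ih =>
      rw [SimpleGraph.Walk.length_cons]
      have := hpar _ _ h
      omega
  by_contra hlt
  push Not at hlt
  obtain ⟨p, hp⟩ := SimpleGraph.exists_walk_of_edist_ne_top (G := G) (u := a) (v := b)
    (ne_top_of_lt hlt)
  rw [← hp] at hlt
  have hlen : p.length < 5 := by exact_mod_cast hlt
  have hpar' := hw _ _ p
  cases p with
  | nil => omega
  | cons g1 p1 =>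
    cases p1 with
    | nil => exact h1 g1
    | cons g2 p2 =>
      cases p2 with
      | nil =>
        simp only [SimpleGraph.Walk.length_cons, SimpleGraph.Walk.length_nil] at hpar'
        omega
      | cons g3 p3 =>
        cases p3 with
        | nil => exact h3 _ _ g1 g2 g3
        | cons g4 p4 =>
          cases p4 with
          | nil =>
            simp only [SimpleGraph.Walk.length_cons, SimpleGraph.Walk.length_nil] at hpar'
            omega
          | cons g5 p5 =>
            simp only [SimpleGraph.Walk.length_cons] at hlen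
            omega

/-- an edge changes the parity of the half -/
lemma parity {z n : ℕ} (hz : 7 ≤ z) {a b : Vtx n} (h : (Sieved z n).Adj a b) :
    (a.1 / 2 + b.1 / 2) % 2 = 1 := by
  have h1 := (h.2 3 Nat.prime_three le_rfl (by omega)).2.1.1
  rw [Nat.odd_iff] at h1
  have ha := a.2.1
  have hb := b.2.1
  omega

/-- two multiples of 3 are not adjacent -/
lemma not_both {z n : ℕ} (hz : 7 ≤ z) {a b : Vtx n} (h : (Sieved z n).Adj a b) : ¬ (3 ∣ a.1 ∧ 3 ∣ b.1) := by
  rintro ⟨ha, hb⟩
  have h1 := (h.2 3 Nat.prime_three le_rfl (by omega)).2.1.2.2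
  have ha2 := a.2.1
  have hb2 := b.2.1
  have ha3 := a.2.2.1
  have hb3 := b.2.2.1
  apply h1
  refine ⟨(a.1 + b.1) / 2 / 3, by omega, by omega⟩

/-- the neighbours of a vertex `a`, not a multiple of 3, with `a + 3` and `a - 3` proper multiples of 5
and 7 -/
lemma nbr {z n : ℕ} (hz : 7 ≤ z) {a b : Vtx n} (ha0 : 10 ≤ a.1) (ha3 : ¬ 3 ∣ a.1) (h5 : 5 ∣ a.1 + 3)
    (h7 : 7 ∣ a.1 - 3) (h : (Sieved z n).Adj a b) : 3 ∣ b.1 := by
  by_contra hb
  have h1 := (h.2 3 Nat.prime_three le_rfl (by omega)).2.1.2.2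
  have h2 := (h.2 3 Nat.prime_three le_rfl (by omega)).2.2.2.2
  have h3 := (h.2 5 (by norm_num) (by norm_num) (by omega)).2.1.2.2
  have h4 := (h.2 7 (by norm_num) (by norm_num) (by omega)).2.1.2.2
  have ha2 := a.2.1
  have hb2 := b.2.1
  have hb3 := b.2.2.1
  have hne : a.1 ≠ b.1 := fun h' => h.1 (Subtype.ext h')
  have h10 : (a.1 + b.1) % 3 = 0 ∨ ((a.1 : ℤ) - b.1) % 3 = 0 := by
    clear h1 h2 h3 h4 h5 h7 h
    rcases (show a.1 % 3 = 1 ∨ a.1 % 3 = 2 by omega) with e1 | e1 <;>
      rcases (show b.1 % 3 = 1 ∨ b.1 % 3 = 2 by omega) with e2 | e2 <;> omega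
  rcases h10 with h6 | h6
  · exact h1 ⟨(a.1 + b.1) / 2 / 3, by omega, by omega⟩
  · by_cases h8 : ((a.1 : ℤ) - b.1).natAbs = 6
    · rcases (show b.1 = a.1 + 6 ∨ b.1 + 6 = a.1 by omega) with h9 | h9
      · exact h3 ⟨(a.1 + b.1) / 2 / 5, by omega, by omega⟩
      · exact h4 ⟨(a.1 + b.1) / 2 / 7, by omega, by omega⟩
    · exact h2 ⟨((a.1 : ℤ) - b.1).natAbs / 2 / 3, by omega, by omega⟩

/-- **The lower bound.** -/
theorem lower_pair {z n : ℕ} (hz : 7 ≤ z) (a b : Vtx n) (ha : a.1 = 52) (hb : b.1 = 122) :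
    5 ≤ (Sieved z n).edist a b := by
  have hA : ∀ c : Vtx n, (Sieved z n).Adj a c → 3 ∣ c.1 := fun c hc =>
    nbr hz (by omega) (by omega) (by rw [ha]; norm_num) (by rw [ha]; norm_num) hc
  have hB : ∀ c : Vtx n, (Sieved z n).Adj b c → 3 ∣ c.1 := fun c hc =>
    nbr hz (by omega) (by omega) (by rw [hb]; norm_num) (by rw [hb]; norm_num) hc
  apply five_le (Sieved z n) (fun c => c.1 / 2) (fun c d h => parity hz h)
  · simp only [ha, hb]
  · intro h
    have := hA _ h
    rw [hb] at this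
    norm_num at this
  · intro x y h1 h2 h3
    exact not_both hz h2 ⟨hA _ h1, hB _ h3.symm⟩

end Pool.Agent.X35.GG
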