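import Pool.Agent.Y151.HS.FLC

/-!
# Integers in an interval which avoid given classes modulo all small odd primes
-/

set_option autoImplicit false

open Finset

namespace Pool.Agent.X35.GG

open Pool.Agent.Y843.HS (Pr Sv VV)

/-- lower bound for a sieve product (after `Y840/PT/Alm`) -/
lemma prod_low (l : ℕ) (s : Finset ℕ) (z : ℕ) (hs : ∀ p ∈ s, l < p ∧ p ≤ z) (hz : l ≤ z) (f : ℕ → ℝ)
    (hf : ∀ p ∈ s, f p ≤ l) : 1 / (z : ℝ) ^ l ≤ ∏ p ∈ s, (1 - f p / p) := by
  classical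
  have h1 : ∏ p ∈ s, (1 - (l : ℝ) / p) ≤ ∏ p ∈ s, (1 - f p / p) := by
    apply Finset.prod_le_prod
    · intro p hp
      have h2 : (l : ℝ) < p := by exact_mod_cast (hs p hp).1
      have h3 : (0 : ℝ) < p := lt_of_le_of_lt (Nat.cast_nonneg l) h2
      rw [sub_nonneg, div_le_one h3]
      exact h2.le
    · intro p hp
      have h2 : (l : ℝ) < p := by exact_mod_cast (hs p hp).1
      have h3 : (0 : ℝ) < p := lt_of_le_of_lt (Nat.cast_nonneg l) h2
      have := div_le_div_of_nonneg_right (hf p hp) h3.le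
      linarith
  refine le_trans ?_ h1
  have hsub : s ⊆ Ioc l z := fun p hp => mem_Ioc.2 (hs p hp)
  have h2 : ∏ p ∈ Ioc l z, (1 - (l : ℝ) / p) ≤ ∏ p ∈ s, (1 - (l : ℝ) / p) := by
    rw [← prod_sdiff hsub]
    have h3 : ∏ p ∈ Ioc l z \ s, (1 - (l : ℝ) / p) ≤ 1 := by
      apply prod_le_one
      · intro p hp
        have h2 : (l : ℝ) < p := by exact_mod_cast (mem_Ioc.1 (Finset.mem_sdiff.1 hp).1).1
        have h3 : (0 : ℝ) < p := lt_of_le_of_lt (Nat.cast_nonneg l) h2
        rw [sub_nonneg, div_le_one h3]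
        exact h2.le
      · intro p hp
        have : (0 : ℝ) ≤ (l : ℝ) / p := by positivity
        linarith
    have h4 : 0 ≤ ∏ p ∈ s, (1 - (l : ℝ) / p) := by
      apply prod_nonneg
      intro p hp
      have h2 : (l : ℝ) < p := by exact_mod_cast (hs p hp).1
      have h3 : (0 : ℝ) < p := lt_of_le_of_lt (Nat.cast_nonneg l) h2
      rw [sub_nonneg, div_le_one h3]
      exact h2.le
    nlinarith
  refine le_trans ?_ h2
  have key : ∀ z : ℕ, l ≤ z → ∏ p ∈ Ioc l z, (1 - (l : ℝ) / p) = 1 / (z.choose l : ℝ) := by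
    intro z hz
    induction z, hz using Nat.le_induction with
    | base => simp
    | succ z hz ih =>
      rw [Finset.prod_Ioc_succ_top (by omega), ih]
      have h5 := Nat.choose_mul_succ_eq z l
      have h6 : (z.choose l : ℝ) * (z + 1) = ((z + 1).choose l : ℝ) * (z + 1 - l) := by
        have : ((z.choose l * (z + 1) : ℕ) : ℝ) = (((z + 1).choose l * (z + 1 - l) : ℕ) : ℝ) := by
          exact_mod_cast h5
        rw [Nat.cast_mul, Nat.cast_mul, Nat.cast_sub (by omega)] at this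
        push_cast at this
        exact this
      have h7 : (0 : ℝ) < (z.choose l : ℝ) := by exact_mod_cast Nat.choose_pos hz
      have h8 : (0 : ℝ) < ((z + 1).choose l : ℝ) := by exact_mod_cast Nat.choose_pos (by omega)
      have h9 : (0 : ℝ) < (z : ℝ) + 1 := by positivity
      push_cast
      rw [one_sub_div h9.ne', div_mul_div_comm, div_eq_div_iff (by positivity) h8.ne']
      linarith
  rw [key z hz]
  have h7 : (0 : ℝ) < (z.choose l : ℝ) := by exact_mod_cast Nat.choose_pos hz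
  apply one_div_le_one_div_of_le h7
  exact_mod_cast Nat.choose_le_pow z l

/-- the classes of `S` modulo `p` -/
noncomputable def Cl (S : Finset ℤ) (p : ℕ) : Finset ℕ := S.image (fun s => (s % (p : ℤ)).toNat)

lemma Cl_card (S : Finset ℤ) (p : ℕ) : (Cl S p).card ≤ S.card := card_image_le

lemma Cl_lt (S : Finset ℤ) {p : ℕ} (hp : 0 < p) : ∀ c ∈ Cl S p, c < p := by
  intro c hc
  unfold Cl at hc
  rw [mem_image] at hc
  obtain ⟨s, _, rfl⟩ := hc
  have hp' : (0 : ℤ) < p := by exact_mod_cast hp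
  have h1 := Int.emod_nonneg s hp'.ne'
  have h2 := Int.emod_lt_of_pos s hp'
  omega

lemma mem_Cl (S : Finset ℤ) {p : ℕ} (hp : 0 < p) (x : ℕ) : x % p ∈ Cl S p ↔ ∃ s ∈ S, (p : ℤ) ∣ (x : ℤ) - s := by
  have hp' : (0 : ℤ) < p := by exact_mod_cast hp
  unfold Cl
  rw [mem_image]
  constructor
  · rintro ⟨s, hs, h⟩
    refine ⟨s, hs, ?_⟩
    have h1 := Int.emod_nonneg s hp'.ne'
    have h2 : s % (p : ℤ) = (x : ℤ) % p := by
      have : (((s % (p : ℤ)).toNat : ℕ) : ℤ) = ((x % p : ℕ) : ℤ) := by rw [h]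
      rw [Int.toNat_of_nonneg h1] at this
      rw [this]
      push_cast
      rfl
    exact Int.ModEq.dvd h2
  · rintro ⟨s, hs, h⟩
    refine ⟨s, hs, ?_⟩
    have h1 := Int.emod_nonneg s hp'.ne'
    have h2 : s % (p : ℤ) = (x : ℤ) % p := (Int.modEq_iff_dvd.2 h)
    rw [h2]
    have : ((x : ℤ) % (p : ℤ)) = ((x % p : ℕ) : ℤ) := by push_cast; rfl
    rw [this, Int.toNat_natCast]

/-- **Rough values.** -/
theorem exists_rough (l : ℕ) : ∃ κ : ℝ, 0 < κ ∧ ∃ X₀ : ℕ, ∀ X A : ℕ, X₀ ≤ X → ∀ S : Finset ℤ, S.card ≤ l →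
    (∀ p : ℕ, p.Prime → 3 ≤ p → ∃ c : ℤ, ∀ s ∈ S, ¬ (p : ℤ) ∣ c - s) → ∀ r : ℕ,
    ∃ x : ℕ, A < x ∧ x ≤ A + X ∧ x % 4 = r % 4 ∧
      ∀ p : ℕ, p.Prime → 3 ≤ p → (p : ℝ) ≤ (X : ℝ) ^ κ → ∀ s ∈ S, ¬ (p : ℤ) ∣ (x : ℤ) - s := by
  classical
  obtain ⟨C, hC, hfl⟩ := Pool.Agent.Y151.HS.flc
  obtain ⟨b, hb⟩ : ∃ b, b = C * (l + 1) := ⟨_, rfl⟩
  obtain ⟨s, hs⟩ : ∃ s, s = C * (l + 1) + l + 3 := ⟨_, rfl⟩
  obtain ⟨D, hD⟩ : ∃ D, D = 4 * ∏ p ∈ Pr 2 s, p := ⟨_, rfl⟩
  have hDpos : 0 < D := by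
    rw [hD]
    apply Nat.mul_pos (by norm_num)
    apply Finset.prod_pos
    intro p hp
    unfold Pr at hp
    rw [mem_filter] at hp
    exact hp.2.pos
  obtain ⟨E, hE⟩ : ∃ E, E = C * b + l + 1 := ⟨_, rfl⟩
  have hE1 : 1 ≤ E := by omega
  refine ⟨1 / (16 * E), by positivity, 2 ^ (2 * E * 2 ^ (D + s)), ?_⟩
  intro X A hX S hSl hadm r
  -- the level
  obtain ⟨m, hm⟩ : ∃ m, m = Nat.log 2 X := ⟨_, rfl⟩
  have hX0 : X ≠ 0 := by
    have : 0 < 2 ^ (2 * E * 2 ^ (D + s)) := by positivity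
    omega
  have hm1 : 2 ^ m ≤ X := by rw [hm]; exact Nat.pow_log_le_self 2 hX0
  have hm2 : X < 2 ^ (m + 1) := by rw [hm]; exact Nat.lt_pow_succ_log_self (by norm_num) X
  have hmlow : 2 * E * 2 ^ (D + s) ≤ m := by
    rw [hm]
    exact (Nat.le_log_iff_pow_le (by norm_num) hX0).2 hX
  obtain ⟨q, hq⟩ : ∃ q, q = m / (2 * E) := ⟨_, rfl⟩
  have hq1 : 2 ^ (D + s) ≤ q := by
    rw [hq, Nat.le_div_iff_mul_le (by omega)]
    linarith
  have hq0 : q ≠ 0 := by
    have : 0 < 2 ^ (D + s) := by positivity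
    omega
  obtain ⟨J, hJ⟩ : ∃ J, J = Nat.log 2 q := ⟨_, rfl⟩
  have hJ1 : 2 ^ J ≤ q := by rw [hJ]; exact Nat.pow_log_le_self 2 hq0
  have hJ2 : q < 2 ^ (J + 1) := by rw [hJ]; exact Nat.lt_pow_succ_log_self (by norm_num) q
  have hJlow : D + s ≤ J := by
    rw [hJ]
    exact (Nat.le_log_iff_pow_le (by norm_num) hq0).2 hq1
  obtain ⟨z, hz⟩ : ∃ z, z = 2 ^ 2 ^ J := ⟨_, rfl⟩
  have hzJ : J < z := by
    rw [hz]
    exact lt_trans Nat.lt_two_pow_self (Nat.pow_lt_pow_right (by norm_num) Nat.lt_two_pow_self)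
  have hzD : 4 * D + s ≤ z := by
    -- 2 ^ 2 ^ J is much larger than J
    have h1 : D + s + 2 ≤ 2 ^ J := by
      have h2 : D + s + 1 < 2 ^ (D + s + 1) := Nat.lt_two_pow_self
      have h3 : 4 ≤ D := by
        rw [hD]
        have : 0 < ∏ p ∈ Pr 2 s, p := by
          apply Finset.prod_pos
          intro p hp
          unfold Pr at hp
          rw [mem_filter] at hp
          exact hp.2.pos
        omega
      have h4 : D + s + 2 ≤ 2 ^ (D + s) := by
        have : ∀ k : ℕ, 4 ≤ k → k + 2 ≤ 2 ^ k := by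
          intro k hk
          induction k, hk using Nat.le_induction with
          | base => norm_num
          | succ k _ ih => rw [pow_succ]; omega
        exact this _ (by omega)
      exact h4.trans (Nat.pow_le_pow_right (by norm_num) hJlow)
    rw [hz]
    calc 4 * D + s ≤ 4 * 2 ^ (D + s) := by
            have : D + s < 2 ^ (D + s) := Nat.lt_two_pow_self
            omega
      _ = 2 ^ (D + s + 2) := by rw [pow_add]; ring
      _ ≤ 2 ^ 2 ^ J := Nat.pow_le_pow_right (by norm_num) h1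
  have hzX : z ^ (2 * E) ≤ X := by
    rw [hz, ← pow_mul]
    refine le_trans (Nat.pow_le_pow_right (by norm_num) ?_) hm1
    calc 2 ^ J * (2 * E) ≤ q * (2 * E) := Nat.mul_le_mul_right _ hJ1
      _ ≤ m := by rw [hq]; exact Nat.div_mul_le_self m (2 * E)
  -- the classes modulo the small primes
  have hex : ∀ p : ℕ, ∃ c : ℕ, (p.Prime ∧ 3 ≤ p) → ∀ t ∈ S, ¬ (p : ℤ) ∣ (c : ℤ) - t := by
    intro p
    by_cases hp : p.Prime ∧ 3 ≤ p
    · obtain ⟨c, hc⟩ := hadm p hp.1 hp.2
      refine ⟨(c % (p : ℤ)).toNat, fun _ t ht hd => hc t ht ?_⟩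
      have hp' : (0 : ℤ) < p := by exact_mod_cast hp.1.pos
      rw [Int.toNat_of_nonneg (Int.emod_nonneg _ hp'.ne')] at hd
      have h2 : c - t = (c % (p : ℤ) - t) + p * (c / p) := by
        have := Int.emod_add_mul_ediv c p
        linarith
      rw [h2]
      exact dvd_add hd (dvd_mul_right _ _)
    · exact ⟨0, fun h => absurd h hp⟩
  choose c hc using hex
  obtain ⟨a, ha⟩ := Nat.chineseRemainderOfFinset (fun p => if p = 4 then r else c p) id (insert 4 (Pr 2 s))
    (fun p hp => by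
      rw [mem_insert] at hp
      rcases hp with rfl | hp
      · norm_num
      · unfold Pr at hp
        exact (mem_filter.1 hp).2.ne_zero)
    (fun p hp q hq hpq => by
      have hodd : ∀ p ∈ Pr 2 s, p.Prime ∧ 3 ≤ p := fun p hp => by
        unfold Pr at hp
        rw [mem_filter, mem_Ioc] at hp
        exact ⟨hp.2, by omega⟩
      have h4 : ∀ p ∈ Pr 2 s, Nat.Coprime 4 p := fun p hp => by
        obtain ⟨h1, h2⟩ := hodd p hp
        have : Nat.Coprime (2 ^ 2) p := Nat.Coprime.pow_left 2 ((Nat.coprime_primes Nat.prime_two h1).2 (by omega))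
        simpa using this
      rw [Finset.mem_coe, mem_insert] at hp hq
      simp only [Function.onFun, id]
      rcases hp with rfl | hp
      · rcases hq with rfl | hq
        · exact absurd rfl hpq
        · exact h4 q hq
      · rcases hq with rfl | hq
        · exact (h4 p hp).symm
        · exact (Nat.coprime_primes (hodd p hp).1 (hodd q hq).1).2 hpq)
  have ha4 : a ≡ r [MOD 4] := by
    have := ha 4 (mem_insert_self _ _)
    simpa using this
  have hap : ∀ p ∈ Pr 2 s, a ≡ c p [MOD p] := by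
    intro p hp
    have h1 := ha p (mem_insert_of_mem hp)
    have h2 : p ≠ 4 := by
      unfold Pr at hp
      rintro rfl
      exact absurd (mem_filter.1 hp).2 (by norm_num)
    simpa [h2] using h1
  have hSv : Sv l s (2 ^ 2 ^ J) (Cl S) := by
    intro p hp
    have hpp : p.Prime := by
      unfold Pr at hp
      exact (mem_filter.1 hp).2
    exact ⟨(Cl_card S p).trans hSl, Cl_lt S hpp.pos⟩
  have hpD : ∀ p ∈ Pr s (2 ^ 2 ^ J), ¬ p ∣ D := by
    intro p hp hd
    unfold Pr at hp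
    rw [mem_filter, mem_Ioc] at hp
    rw [hD] at hd
    rcases (hp.2.dvd_mul).1 hd with h1 | h1
    · have := Nat.le_of_dvd (by norm_num) h1
      have h5 : s < p := hp.1.1
      have : l + 1 ≤ C * (l + 1) := Nat.le_mul_of_pos_left _ (by omega)
      omega
    · obtain ⟨q', hq', h2⟩ := (Prime.dvd_finsetProd_iff hp.2.prime _).1 h1
      unfold Pr at hq'
      rw [mem_filter, mem_Ioc] at hq'
      have := (Nat.prime_dvd_prime_iff_eq hp.2 hq'.2).1 h2
      omega
  have hmain := hfl l b s J (by rw [hb]) (by rw [hs]; omega) (Cl S) hSv D a A X hDpos hpD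
  obtain ⟨P, hP⟩ : ∃ P : ℝ, P = ∏ p ∈ Pr s (2 ^ 2 ^ J), (1 - ((Cl S p).card : ℝ) / p) := ⟨_, rfl⟩
  rw [← hP] at hmain
  have hPlow : 1 / (z : ℝ) ^ l ≤ P := by
    rw [hP]
    apply prod_low l (Pr s (2 ^ 2 ^ J)) z
    · intro p hp
      unfold Pr at hp
      rw [mem_filter, mem_Ioc] at hp
      rw [hz]
      exact ⟨by omega, hp.1.2⟩
    · omega
    · intro p _
      exact_mod_cast (Cl_card S p).trans hSl
  have hz1 : (1 : ℝ) ≤ z := by exact_mod_cast (by omega : 1 ≤ z)
  have hz0 : (0 : ℝ) < z := by linarith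
  have hDr : (0 : ℝ) < D := by exact_mod_cast hDpos
  -- the count is positive
  have hpos : 0 < (((Ioc A (A + X)).filter (fun x => x % D = a % D ∧
      ∀ p ∈ Pr s (2 ^ 2 ^ J), x % p ∉ Cl S p)).card : ℝ) := by
    have h1 := (abs_le.1 hmain).1
    have h2 : (1 / 2 : ℝ) ^ b ≤ 1 / 2 := by
      have : 1 ≤ b := by
        rw [hb]
        exact Nat.mul_pos hC (by omega)
      calc (1 / 2 : ℝ) ^ b ≤ (1 / 2 : ℝ) ^ 1 := pow_le_pow_of_le_one (by norm_num) (by norm_num) this
        _ = 1 / 2 := by norm_num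
    have h3 : 0 ≤ (X : ℝ) / D * P := by
      have : 0 ≤ P := le_trans (by positivity) hPlow
      positivity
    have h4 : ((2 : ℝ) ^ 2 ^ J) ^ (C * b) = (z : ℝ) ^ (C * b) := by
      rw [hz]; push_cast; rfl
    rw [h4] at h1
    have h5 : 2 * (z : ℝ) ^ (C * b) < (X : ℝ) / D * P := by
      have h6 : (z : ℝ) ^ (2 * E) ≤ X := by exact_mod_cast hzX
      have h7 : (z : ℝ) ^ (2 * E) / D * (1 / (z : ℝ) ^ l) ≤ (X : ℝ) / D * P := by
        apply mul_le_mul _ hPlow (by positivity) (by positivity)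
        exact div_le_div_of_nonneg_right h6 hDr.le
      refine lt_of_lt_of_le ?_ h7
      have h8 : (z : ℝ) ^ (2 * E) = (z : ℝ) ^ (C * b) * (z : ℝ) ^ l * ((z : ℝ) ^ (C * b + l) * (z : ℝ) ^ 2) := by
        rw [← pow_add, ← pow_add, ← pow_add]
        congr 1
        omega
      rw [h8]
      have h9 : (4 : ℝ) * D ≤ z := by exact_mod_cast (by omega : 4 * D ≤ z)
      have h10 : (1 : ℝ) ≤ (z : ℝ) ^ (C * b + l) := one_le_pow₀ hz1
      have h11 : 2 * (D : ℝ) < (z : ℝ) ^ (C * b + l) * (z : ℝ) ^ 2 := by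
        have h12 : (z : ℝ) ≤ (z : ℝ) ^ 2 := by nlinarith
        calc 2 * (D : ℝ) < 4 * D := by linarith
          _ ≤ z := h9
          _ ≤ (z : ℝ) ^ 2 := h12
          _ = 1 * (z : ℝ) ^ 2 := by ring
          _ ≤ _ := by gcongr
      rw [div_mul_div_comm, lt_div_iff₀ (by positivity)]
      have h13 : 0 < (z : ℝ) ^ (C * b) * (z : ℝ) ^ l := by positivity
      nlinarith
    nlinarith
  have hne : ((Ioc A (A + X)).filter (fun x => x % D = a % D ∧
      ∀ p ∈ Pr s (2 ^ 2 ^ J), x % p ∉ Cl S p)).Nonempty := by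
    rw [← Finset.card_pos]
    exact_mod_cast hpos
  obtain ⟨x, hx⟩ := hne
  simp only [mem_filter, mem_Ioc] at hx
  obtain ⟨⟨hx1, hx2⟩, hx3, hx4⟩ := hx
  have hxa : x ≡ a [MOD D] := hx3
  refine ⟨x, hx1, hx2, ?_, ?_⟩
  · have h1 : x ≡ a [MOD 4] := Nat.ModEq.of_dvd (by rw [hD]; exact dvd_mul_right _ _) hxa
    exact h1.trans ha4
  · intro p hp hp3 hpX t ht hd
    by_cases hps : p ≤ s
    · have hpm : p ∈ Pr 2 s := by
        unfold Pr
        rw [mem_filter, mem_Ioc]
        exact ⟨⟨by omega, hps⟩, hp⟩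
      have h1 : x ≡ a [MOD p] := Nat.ModEq.of_dvd (by
        rw [hD]
        exact (dvd_prod_of_mem (fun p : ℕ => p) hpm).trans (Dvd.intro_left _ rfl)) hxa
      have h2 := h1.trans (hap p hpm)
      apply hc p ⟨hp, hp3⟩ t ht
      have h3 : (p : ℤ) ∣ (c p : ℤ) - x := (Int.modEq_iff_dvd).1 ((Int.natCast_modEq_iff).2 h2)
      have h4 := dvd_add h3 hd
      have h5 : (c p : ℤ) - x + ((x : ℤ) - t) = c p - t := by ring
      rwa [h5] at h4
    · have hpz : p ≤ 2 ^ 2 ^ J := by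
        -- `X ^ κ ≤ z`
        have h1 : (X : ℝ) ≤ (z : ℝ) ^ (16 * E) := by
          have h2 : X ≤ z ^ (16 * E) := by
            refine hm2.le.trans ?_
            rw [hz, ← pow_mul]
            apply Nat.pow_le_pow_right (by norm_num)
            have h3 : m < 2 * E * (q + 1) := by
              rw [hq]
              have := Nat.lt_mul_div_succ m (show 0 < 2 * E by omega)
              linarith
            have h4 : q + 1 ≤ 2 ^ (J + 1) := hJ2
            have h5 : 2 * E * (q + 1) ≤ 2 * E * 2 ^ (J + 1) := Nat.mul_le_mul_left _ h4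
            have h6 : 2 * E * 2 ^ (J + 1) = 4 * E * 2 ^ J := by rw [pow_succ]; ring
            have h7 : 1 ≤ 2 ^ J := Nat.one_le_two_pow
            have h8 : E ≤ E * 2 ^ J := Nat.le_mul_of_pos_right _ (by positivity)
            have h9 : 2 ^ J * (16 * E) = 16 * (E * 2 ^ J) := by ring
            have h10 : 4 * E * 2 ^ J = 4 * (E * 2 ^ J) := by ring
            omega
          exact_mod_cast h2
        have hE0 : (0 : ℝ) < E := by exact_mod_cast hE1
        have h2 : (X : ℝ) ^ (1 / (16 * (E : ℝ))) ≤ z := by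
          calc (X : ℝ) ^ (1 / (16 * (E : ℝ))) ≤ ((z : ℝ) ^ (16 * E)) ^ (1 / (16 * (E : ℝ))) :=
                Real.rpow_le_rpow (Nat.cast_nonneg _) h1 (by positivity)
            _ = z := by
                rw [← Real.rpow_natCast, ← Real.rpow_mul hz0.le]
                have : ((16 * E : ℕ) : ℝ) * (1 / (16 * (E : ℝ))) = 1 := by
                  push_cast
                  field_simp
                rw [this, Real.rpow_one]
        have h3 : (p : ℝ) ≤ z := hpX.trans h2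
        rw [← hz]
        exact_mod_cast h3
      have hpm : p ∈ Pr s (2 ^ 2 ^ J) := by
        unfold Pr
        rw [mem_filter, mem_Ioc]
        exact ⟨⟨by omega, hpz⟩, hp⟩
      exact hx4 p hpm ((mem_Cl S hp.pos x).2 ⟨t, ht, hd⟩)

end Pool.Agent.X35.GG
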