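import Pool.Agent.X35.GG.Deg2

/-!
# Almost every vertex has a positive proportion of the vertices within distance two
-/

set_option autoImplicit false

open Finset Filter

namespace Pool.Agent.X35.GG

/-- the even numbers `2, …, 2 n` outside `E` -/
def Vx (n : ℕ) (E : Finset ℕ) : Finset ℕ := (Icc 2 (2 * n)).filter (fun b => 2 ∣ b ∧ b ∉ E)

open Classical in
/-- the vertices reached in two steps -/
noncomputable def N2 (n : ℕ) (E : Finset ℕ) (a : ℕ) : Finset ℕ :=
  (Icc 2 (2 * n)).filter (fun c => 2 ∣ c ∧ ∃ b ∈ Vx n E, Ad a b ∧ Ad b c)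

lemma natAbs_half_prime {x : ℤ} {y : ℕ} (h : x.natAbs = y) (hy : y.Prime) : x.natAbs.Prime := by
  rw [h]; exact hy

/-- common neighbours of `a` and `c` -/
lemma common_le (n : ℕ) (F : ℤ → ℤ → ℝ)
    (hF : ∀ a d : ℤ, a ≠ 0 → ∀ B : Finset ℕ, B ⊆ Ioc 0 (2 * n) →
      (∀ t ∈ B, ∀ s ∈ S4 a d, ((t : ℤ) - s).natAbs.Prime) → (B.card : ℝ) ≤ F a d)
    (a c : ℕ) (ha : 2 ∣ a) (hc : 2 ∣ c) (ha2 : 2 ≤ a) (hal : a ≤ 2 * n) (B : Finset ℕ)
    (hB : ∀ b ∈ B, b ≤ 2 * n ∧ 2 ∣ b ∧ Ad a b ∧ Ad b c) :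
    (B.card : ℝ) ≤ F a (((a : ℤ) - c) / 2) := by
  classical
  have h1 : B.card = (B.image (fun b => (a + b) / 2)).card := by
    rw [card_image_of_injOn]
    intro x hx y hy h
    have := (hB x hx).2.1
    have := (hB y hy).2.1
    simp only at h
    omega
  rw [h1]
  apply hF (a : ℤ) (((a : ℤ) - c) / 2) (by omega)
  · intro t ht
    rw [mem_image] at ht
    obtain ⟨b, hb, rfl⟩ := ht
    have := (hB b hb).1
    rw [mem_Ioc]
    omega
  · intro t ht s hs
    rw [mem_image] at ht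
    obtain ⟨b, hb, rfl⟩ := ht
    obtain ⟨b1, b2, b3, b4⟩ := hB b hb
    unfold S4 at hs
    rw [mem_insert, mem_insert, mem_insert, mem_singleton] at hs
    rcases hs with rfl | rfl | rfl | rfl
    · exact natAbs_half_prime (by omega) b3.2.1.1
    · exact natAbs_half_prime (y := ((a : ℤ) - b).natAbs / 2) (by omega) b3.2.2.1
    · exact natAbs_half_prime (y := (b + c) / 2) (by omega) b4.2.1.1
    · exact natAbs_half_prime (y := ((b : ℤ) - c).natAbs / 2) (by omega) b4.2.2.1

/-- **Almost every vertex has a positive proportion of the vertices within distance two.** -/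
theorem two_main : ∃ c : ℝ, 0 < c ∧ ∀ A : ℕ, ∃ n₀ : ℕ, ∀ n : ℕ, n₀ ≤ n → ∃ E : Finset ℕ,
    (E.card : ℝ) ≤ n / Real.log n ^ A ∧ ∀ a ∈ Vx n E, c * n ≤ (N2 n E a \ E).card := by
  classical
  obtain ⟨C, hC, n1, h1⟩ := up_main
  refine ⟨1 / (2 * (2048 ^ 2 * C)), by positivity, fun A => ?_⟩
  obtain ⟨n2, h2⟩ := deg_main (A + 4)
  have h3 := (Real.tendsto_log_atTop.comp (tendsto_natCast_atTop_atTop (R := ℝ))).eventually_ge_atTop
    (8 + 2 * (2048 ^ 2 * C))
  obtain ⟨n3, h3⟩ := eventually_atTop.1 h3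
  refine ⟨n1 + n2 + n3 + 2, fun n hn => ?_⟩
  obtain ⟨F, hF1, hF2⟩ := h1 n (by omega)
  obtain ⟨E', hE1, hE2, hE3⟩ := h2 n (by omega)
  have c3 : 8 + 2 * (2048 ^ 2 * C) ≤ Real.log n := h3 n (by omega)
  have hn0 : (0 : ℝ) < n := by exact_mod_cast (by omega : 0 < n)
  set L := Real.log n with hL
  have hCpos : 0 < 2 * (2048 ^ 2 * C) := by positivity
  have hL8 : 8 ≤ L := by linarith
  have hL0 : 0 < L := by linarith
  have hL1 : 1 ≤ L := by linarith
  have hEc : (((E'.image (fun m => 2 * m)).card : ℕ) : ℝ) = E'.card := by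
    rw [card_image_of_injective _ (fun x y h => by simpa using h)]
  set E := E'.image (fun m => 2 * m) with hE
  have hcardE : (E.card : ℝ) ≤ n / L ^ (A + 4) := by rw [hEc]; exact hE2
  have hpow : L ^ 4 ≤ L ^ (A + 4) := pow_le_pow_right₀ hL1 (by omega)
  have hcardE4 : (E.card : ℝ) ≤ n / L ^ 4 := by
    refine hcardE.trans ?_
    exact div_le_div_of_nonneg_left hn0.le (by positivity) hpow
  set X : ℝ := n / L ^ 2 with hX
  have hX0 : 0 < X := by rw [hX]; positivity
  have hdeg : ∀ a ∈ Vx n E, 1 / 32 * AA (a : ℤ) * X ≤ (Nb n a).card := by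
    intro a ha
    unfold Vx at ha
    rw [mem_filter, mem_Icc] at ha
    have h4 := hE3 (a / 2) (by rw [mem_Icc]; omega) (by
      intro hcon
      apply ha.2.2
      rw [hE, mem_image]
      exact ⟨a / 2, hcon, by omega⟩)
    have e : 2 * (a / 2) = a := by omega
    rw [e] at h4
    exact h4
  refine ⟨E, ?_, ?_⟩
  · refine hcardE.trans ?_
    exact div_le_div_of_nonneg_left hn0.le (by positivity) (pow_le_pow_right₀ hL1 (by omega))
  intro a ha
  have hda := hdeg a ha
  have ha' := ha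
  unfold Vx at ha'
  rw [mem_filter, mem_Icc] at ha'
  have hAA := one_le_AA (a : ℤ)
  set B := (Nb n a).filter (fun b => b ∉ E) with hB
  have hBV : ∀ b ∈ B, b ∈ Vx n E ∧ Ad a b := by
    intro b hb
    rw [hB, mem_filter] at hb
    have h5 := hb.1
    unfold Nb at h5
    rw [mem_filter] at h5
    unfold Vx
    rw [mem_filter]
    exact ⟨⟨h5.1, h5.2.1, hb.2⟩, h5.2.2⟩
  have hBcard : 1 / 64 * AA (a : ℤ) * X ≤ B.card := by
    have h5 : (Nb n a).card ≤ B.card + E.card := by
      have : Nb n a ⊆ B ∪ E := by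
        intro b hb
        rw [mem_union, hB, mem_filter]
        by_cases hbE : b ∈ E
        · exact Or.inr hbE
        · exact Or.inl ⟨hb, hbE⟩
      exact (card_le_card this).trans (card_union_le _ _)
    have h6 : ((Nb n a).card : ℝ) ≤ B.card + E.card := by exact_mod_cast h5
    have h7 : (E.card : ℝ) ≤ X / 64 := by
      refine hcardE4.trans ?_
      have e : (n : ℝ) / L ^ 4 = X / L ^ 2 := by rw [hX]; field_simp
      rw [e]
      exact div_le_div_of_nonneg_left hX0.le (by norm_num) (by nlinarith)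
    have h8 : X ≤ AA (a : ℤ) * X := le_mul_of_one_le_left hX0.le hAA
    linarith
  -- the number of paths of length two
  set M := N2 n E a with hM
  have hW : (B.card : ℝ) * (1 / 32 * X) ≤ ∑ c ∈ M, F a (((a : ℤ) - c) / 2) := by
    have h5 : (B.card : ℝ) * (1 / 32 * X) ≤ ∑ b ∈ B, ((Nb n b).card : ℝ) := by
      rw [← nsmul_eq_mul, ← sum_const]
      apply sum_le_sum
      intro b hb
      have h6 := hdeg b (hBV b hb).1
      have h7 := one_le_AA (b : ℤ)
      have h8 : X ≤ AA (b : ℤ) * X := le_mul_of_one_le_left hX0.le h7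
      linarith
    refine h5.trans ?_
    have h6 : ∀ b ∈ B, (Nb n b) ⊆ M := by
      intro b hb c hc
      unfold Nb at hc
      rw [mem_filter] at hc
      rw [hM]
      unfold N2
      rw [mem_filter]
      exact ⟨hc.1, hc.2.1, b, (hBV b hb).1, (hBV b hb).2, hc.2.2⟩
    have h7 : ∑ b ∈ B, ((Nb n b).card : ℝ) = ∑ c ∈ M, ((B.filter (fun b => c ∈ Nb n b)).card : ℝ) := by
      have h8 : ∀ b ∈ B, ((Nb n b).card : ℝ) = ∑ c ∈ M, (if c ∈ Nb n b then (1 : ℝ) else 0) := by
        intro b hb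
        rw [← sum_filter, sum_const, nsmul_eq_mul, mul_one]
        congr 2
        ext c
        rw [mem_filter]
        exact ⟨fun h => ⟨h6 b hb h, h⟩, fun h => h.2⟩
      rw [sum_congr rfl h8, sum_comm]
      apply sum_congr rfl
      intro c _
      rw [← sum_filter, sum_const, nsmul_eq_mul, mul_one]
    rw [h7]
    apply sum_le_sum
    intro c hc
    have hc2 : 2 ∣ c := by
      rw [hM] at hc
      unfold N2 at hc
      rw [mem_filter] at hc
      exact hc.2.1
    apply common_le n F hF1 a c ha'.2.1 hc2 ha'.1.1 ha'.1.2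
    intro b hb
    rw [mem_filter] at hb
    have h8 := hb.2
    unfold Nb at h8
    rw [mem_filter] at h8
    have h9 := hBV b hb.1
    have h10 := h9.1
    unfold Vx at h10
    rw [mem_filter, mem_Icc] at h10
    exact ⟨h10.1.2, h10.2.1, h9.2, h8.2.2⟩
  have hCS : (∑ c ∈ M, F a (((a : ℤ) - c) / 2)) ^ 2 ≤ M.card * (C * (n ^ 3 / L ^ 8) * AA (a : ℤ) ^ 2) := by
    refine sq_sum_le_card_mul_sum_sq.trans ?_
    apply mul_le_mul_of_nonneg_left _ (Nat.cast_nonneg _)
    have h5 := hF2 (a : ℤ) (by omega) (by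
      rw [abs_le]
      constructor
      · omega
      · exact_mod_cast ha'.1.2)
    refine le_trans ?_ h5
    have h6 : ∑ c ∈ M, F a (((a : ℤ) - c) / 2) ^ 2 = ∑ d ∈ M.image (fun c : ℕ => ((a : ℤ) - c) / 2), F a d ^ 2 := by
      rw [sum_image]
      intro x hx y hy h
      rw [hM] at hx hy
      unfold N2 at hx hy
      rw [mem_coe, mem_filter] at hx hy
      have := hx.2.1
      have := hy.2.1
      have := ha'.2.1
      simp only at h
      omega
    rw [h6]
    apply sum_le_sum_of_subset_of_nonneg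
    · intro d hd
      rw [mem_image] at hd
      obtain ⟨c, hc, rfl⟩ := hd
      rw [hM] at hc
      unfold N2 at hc
      rw [mem_filter, mem_Icc] at hc
      rw [mem_Icc]
      omega
    · intro d _ _
      positivity
  have hMcard : 2 * (1 / (2 * (2048 ^ 2 * C)) * n) ≤ M.card := by
    have h5 : 0 ≤ (B.card : ℝ) * (1 / 32 * X) := by positivity
    have h6 : ((B.card : ℝ) * (1 / 32 * X)) ^ 2 ≤ M.card * (C * (n ^ 3 / L ^ 8) * AA (a : ℤ) ^ 2) :=
      (pow_le_pow_left₀ h5 hW 2).trans hCS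
    have h7 : (1 / 64 * AA (a : ℤ) * X) * (1 / 32 * X) ≤ (B.card : ℝ) * (1 / 32 * X) :=
      mul_le_mul_of_nonneg_right hBcard (by positivity)
    have h8 := (pow_le_pow_left₀ (by positivity) h7 2).trans h6
    have h9 : ((1 / 64 * AA (a : ℤ) * X) * (1 / 32 * X)) ^ 2 =
        (2 * (1 / (2 * (2048 ^ 2 * C)) * n)) * (C * (n ^ 3 / L ^ 8) * AA (a : ℤ) ^ 2) := by
      rw [hX]
      field_simp
      norm_num
    rw [h9] at h8
    exact le_of_mul_le_mul_right h8 (by positivity)
  have h5 : M.card ≤ (M \ E).card + E.card := by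
    have : M ⊆ (M \ E) ∪ E := by
      intro b hb
      rw [mem_union, Finset.mem_sdiff]
      by_cases hbE : b ∈ E
      · exact Or.inr hbE
      · exact Or.inl ⟨hb, hbE⟩
    exact (card_le_card this).trans (card_union_le _ _)
  have h6 : (M.card : ℝ) ≤ (M \ E).card + E.card := by exact_mod_cast h5
  have h7 : (E.card : ℝ) ≤ 1 / (2 * (2048 ^ 2 * C)) * n := by
    refine hcardE4.trans ?_
    have e : 1 / (2 * (2048 ^ 2 * C)) * (n : ℝ) = n / (2 * (2048 ^ 2 * C)) := by ring
    rw [e]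
    apply div_le_div_of_nonneg_left hn0.le hCpos
    calc 2 * (2048 ^ 2 * C) ≤ L := by linarith
      _ = L ^ 1 := (pow_one _).symm
      _ ≤ L ^ 4 := pow_le_pow_right₀ hL1 (by norm_num)
  linarith

end Pool.Agent.X35.GG
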